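import Pool.Agent.H43.OF.Signs

/-!
# Choice of the signs: a chain of odd wild vertices, alternating signs
-/

namespace H43.OF

open H37.OS

variable {F A E : Type*}

/-- A downward closed predicate on range n is an initial segment. -/
theorem chain_initial (n : ℕ) (P : ℕ → Prop) (hP : ∀ i j, i ≤ j → j < n → P j → P i) :
    ∃ a ≤ n, ∀ i < n, (P i ↔ i < a) := by
  induction n with
  | zero => exact ⟨0, le_refl _, fun i hi => absurd hi (Nat.not_lt_zero i)⟩
  | succ n ih =>
    obtain ⟨a, ha, hPa⟩ := ih (fun i j hij hj h => hP i j hij (Nat.lt_succ_of_lt hj) h)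
    by_cases hn : P n
    · refine ⟨n + 1, le_refl _, fun i hi => ⟨fun _ => hi, fun _ => ?_⟩⟩
      exact hP i n (Nat.lt_succ_iff.1 hi) (Nat.lt_succ_self n) hn
    · refine ⟨a, Nat.le_succ_of_le ha, fun i hi => ?_⟩
      rcases Nat.lt_succ_iff_lt_or_eq.1 hi with h | h
      · exact hPa i h
      · subst h
        exact ⟨fun h => absurd h hn, fun h => absurd (lt_of_lt_of_le h ha) (lt_irrefl _)⟩

/-- An upward closed predicate on range n is a final segment. -/
theorem chain_final (n : ℕ) (P : ℕ → Prop) (hP : ∀ i j, i ≤ j → j < n → P i → P j) :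
    ∃ b, ∀ i < n, (P i ↔ b ≤ i) := by
  obtain ⟨b, _, hb⟩ := chain_initial n (fun i => ¬ P i)
    (fun i j hij hj h h' => h (hP i j hij hj h'))
  refine ⟨b, fun i hi => ?_⟩
  have := hb i hi
  rw [← not_lt, ← this, not_not]

/-- Alternating sums over an interval. -/
theorem alt_Ico (a b : ℕ) : -1 ≤ ∑ i ∈ Finset.Ico a b, (-1 : ℤ) ^ i := by
  rcases le_total a b with h | h
  · rw [Finset.sum_Ico_eq_sub _ h, neg_one_geom_sum, neg_one_geom_sum]
    split_ifs <;> norm_num
  · rw [Finset.Ico_eq_empty (not_lt.2 h)]
    norm_num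

/-- Alternating sums of a 0-1 sequence and the number of its changes. -/
theorem alt_changes (w : ℕ → ℤ) (hw : ∀ i, w i = 0 ∨ w i = 1) (m : ℕ) :
    |2 * ∑ i ∈ Finset.range (m + 1), w i * (-1) ^ i + w m * (-1) ^ (m + 1)| ≤
      1 + ((Finset.range m).filter (fun i => w i ≠ w (i + 1))).card := by
  induction m with
  | zero =>
    rw [Finset.sum_range_one]
    rcases hw 0 with h | h <;> simp [h]
  | succ m ih =>
    rw [Finset.sum_range_succ]
    have h1 : 2 * (∑ i ∈ Finset.range (m + 1), w i * (-1) ^ i + w (m + 1) * (-1) ^ (m + 1)) +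
        w (m + 1) * (-1) ^ (m + 1 + 1) =
        (2 * ∑ i ∈ Finset.range (m + 1), w i * (-1) ^ i + w m * (-1) ^ (m + 1)) +
          (w (m + 1) - w m) * (-1) ^ (m + 1) := by
      rw [pow_succ (-1 : ℤ) (m + 1)]
      ring
    rw [h1]
    refine le_trans (abs_add_le _ _) ?_
    rw [abs_mul, abs_pow, abs_neg, abs_one, one_pow, mul_one]
    have h2 : m ∉ (Finset.range m).filter (fun i => w i ≠ w (i + 1)) := by simp
    have hcard : (((Finset.range (m + 1)).filter (fun i => w i ≠ w (i + 1))).card : ℤ) =
        ((Finset.range m).filter (fun i => w i ≠ w (i + 1))).card +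
          (if w m = w (m + 1) then 0 else 1) := by
      rw [Finset.range_add_one, Finset.filter_insert]
      by_cases h : w m = w (m + 1)
      · rw [if_neg (not_not.2 h), if_pos h, add_zero]
      · rw [if_pos h, if_neg h, Finset.card_insert_of_notMem h2]
        push_cast
        ring
    rw [hcard]
    have h3 : |w (m + 1) - w m| ≤ (if w m = w (m + 1) then 0 else 1) := by
      by_cases h : w m = w (m + 1)
      · rw [if_pos h, h, sub_self, abs_zero]
      · rw [if_neg h]
        rcases hw m with h4 | h4 <;> rcases hw (m + 1) with h5 | h5 <;> rw [h4, h5] <;> norm_num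
    linarith

theorem alt_changes' (w : ℕ → ℤ) (hw : ∀ i, w i = 0 ∨ w i = 1) (m : ℕ) :
    |2 * ∑ i ∈ Finset.range m, w i * (-1) ^ i| ≤
      2 + ((Finset.range (m - 1)).filter (fun i => w i ≠ w (i + 1))).card := by
  cases m with
  | zero => simp
  | succ m =>
    have h1 := alt_changes w hw m
    have h2 : |w m * (-1) ^ (m + 1)| ≤ 1 := by
      rw [abs_mul, abs_pow, abs_neg, abs_one, one_pow, mul_one]
      rcases hw m with h | h <;> rw [h] <;> norm_num
    have h3 := abs_sub_abs_le_abs_sub (2 * ∑ i ∈ Finset.range (m + 1), w i * (-1) ^ i)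
      (-(w m * (-1) ^ (m + 1)))
    rw [sub_neg_eq_add, abs_neg] at h3
    rw [Nat.add_sub_cancel]
    linarith

/-- The same on an interval, one-sided. -/
theorem alt_changes_Ico (w : ℕ → ℤ) (hw : ∀ i, w i = 0 ∨ w i = 1) (a b : ℕ) :
    2 * ∑ i ∈ Finset.Ico a b, w i * (-1) ^ i ≤
      2 + ((Finset.Ico a (b - 1)).filter (fun i => w i ≠ w (i + 1))).card := by
  rcases le_total a b with h | h
  · have h1 := alt_changes' (fun i => w (a + i)) (fun i => hw (a + i)) (b - a)
    rw [Finset.sum_Ico_eq_sum_range]
    have h2 : ∑ k ∈ Finset.range (b - a), w (a + k) * (-1) ^ (a + k) =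
        (-1) ^ a * ∑ i ∈ Finset.range (b - a), w (a + i) * (-1) ^ i := by
      rw [Finset.mul_sum]
      apply Finset.sum_congr rfl
      intro k _
      rw [pow_add]
      ring
    have h3 : ((Finset.range (b - a - 1)).filter (fun i => w (a + i) ≠ w (a + (i + 1)))).card ≤
        ((Finset.Ico a (b - 1)).filter (fun i => w i ≠ w (i + 1))).card := by
      apply Finset.card_le_card_of_injOn (fun i => a + i)
      · intro i hi
        simp only [Finset.coe_filter, Finset.mem_range, Finset.mem_Ico, Set.mem_ofPred_eq] at hi ⊢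
        refine ⟨⟨by omega, by omega⟩, ?_⟩
        rw [add_assoc]
        exact hi.2
      · intro i _ j _ hij
        simpa using hij
    rw [h2]
    have h4 : 2 * ((-1) ^ a * ∑ i ∈ Finset.range (b - a), w (a + i) * (-1) ^ i) ≤
        |2 * ∑ i ∈ Finset.range (b - a), w (a + i) * (-1) ^ i| := by
      have h5 : 2 * ((-1 : ℤ) ^ a * ∑ i ∈ Finset.range (b - a), w (a + i) * (-1) ^ i) =
          (-1) ^ a * (2 * ∑ i ∈ Finset.range (b - a), w (a + i) * (-1) ^ i) := by ring
      rw [h5]
      refine le_trans (le_abs_self _) ?_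
      rw [abs_mul, abs_pow, abs_neg, abs_one, one_pow, one_mul]
    have h6 : (((Finset.range (b - a - 1)).filter
        (fun i => w (a + i) ≠ w (a + (i + 1)))).card : ℤ) ≤
        (((Finset.Ico a (b - 1)).filter (fun i => w i ≠ w (i + 1))).card : ℤ) := by
      exact_mod_cast h3
    linarith
  · rw [Finset.Ico_eq_empty (not_lt.2 h)]
    simp only [Finset.sum_empty, mul_zero]
    positivity

/-- A nonempty finite set of pairwise comparable elements has a last one. -/
theorem exists_last [DecidableEq F] (R : F → F → Prop) (hrefl : ∀ x, R x x)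
    (htr : ∀ x y z, R x y → R y z → R x z) (S : Finset F) (hne : S.Nonempty)
    (hS : ∀ u ∈ S, ∀ v ∈ S, R u v ∨ R v u) : ∃ v ∈ S, ∀ u ∈ S, R u v := by
  induction S using Finset.induction_on with
  | empty => exact absurd hne Finset.not_nonempty_empty
  | insert a S' _ ih =>
    rcases S'.eq_empty_or_nonempty with h | h
    · subst h
      refine ⟨a, by simp, fun u hu => ?_⟩
      have : u = a := by simpa using hu
      rw [this]
      exact hrefl a
    · obtain ⟨v, hv, hlast⟩ := ih h (fun u hu v hv =>
        hS u (Finset.mem_insert_of_mem hu) v (Finset.mem_insert_of_mem hv))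
      rcases hS a (Finset.mem_insert_self _ _) v (Finset.mem_insert_of_mem hv) with h1 | h1
      · refine ⟨v, Finset.mem_insert_of_mem hv, fun u hu => ?_⟩
        rcases Finset.mem_insert.1 hu with h2 | h2
        · rw [h2]; exact h1
        · exact hlast u h2
      · refine ⟨a, Finset.mem_insert_self _ _, fun u hu => ?_⟩
        rcases Finset.mem_insert.1 hu with h2 | h2
        · rw [h2]; exact hrefl a
        · exact htr u v a (hlast u h2) h1

/-- Enumeration of a finite set of pairwise comparable elements. -/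
theorem exists_enum [DecidableEq F] (R : F → F → Prop) (hrefl : ∀ x, R x x)
    (htr : ∀ x y z, R x y → R y z → R x z) (d : F) (n : ℕ) : ∀ S : Finset F, S.card = n →
    (∀ u ∈ S, ∀ v ∈ S, R u v ∨ R v u) → ∃ f : ℕ → F, (∀ i < n, f i ∈ S) ∧
      (∀ v ∈ S, ∃ i < n, f i = v) ∧ (∀ i j, i < n → j < n → f i = f j → i = j) ∧
      ∀ i j, i ≤ j → j < n → R (f i) (f j) := by
  induction n with
  | zero =>
    intro S hS _
    refine ⟨fun _ => d, fun i hi => absurd hi (Nat.not_lt_zero i), fun v hv => ?_,
      fun i j hi => absurd hi (Nat.not_lt_zero i), fun i j _ hj => absurd hj (Nat.not_lt_zero j)⟩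
    rw [Finset.card_eq_zero.1 hS] at hv
    exact absurd hv (Finset.notMem_empty v)
  | succ n ih =>
    intro S hS hcomp
    have hne : S.Nonempty := by
      rw [← Finset.card_pos, hS]
      exact Nat.succ_pos n
    obtain ⟨v, hv, hlast⟩ := exists_last R hrefl htr S hne hcomp
    obtain ⟨f, hf1, hf2, hf3, hf4⟩ := ih (S.erase v) (by rw [Finset.card_erase_of_mem hv, hS]; rfl)
      (fun u hu w hw => hcomp u (Finset.mem_of_mem_erase hu) w (Finset.mem_of_mem_erase hw))
    refine ⟨fun i => if i < n then f i else v, ?_, ?_, ?_, ?_⟩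
    · intro i _
      dsimp only
      split_ifs with h
      · exact Finset.mem_of_mem_erase (hf1 i h)
      · exact hv
    · intro u hu
      by_cases h : u = v
      · exact ⟨n, Nat.lt_succ_self n, by simp [h]⟩
      · obtain ⟨i, hi, hfi⟩ := hf2 u (Finset.mem_erase.2 ⟨h, hu⟩)
        exact ⟨i, Nat.lt_succ_of_lt hi, by simp [hi, hfi]⟩
    · intro i j hi hj hij
      dsimp only at hij
      split_ifs at hij with h1 h2 h2
      · exact hf3 i j h1 h2 hij
      · exact absurd hij (Finset.ne_of_mem_erase (hf1 i h1))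
      · exact absurd hij.symm (Finset.ne_of_mem_erase (hf1 j h2))
      · omega
    · intro i j hij hj
      dsimp only
      split_ifs with h1 h2 h2
      · exact hf4 i j hij h2
      · exact hlast _ (Finset.mem_of_mem_erase (hf1 i h1))
      · omega
      · exact hrefl v

/-- A path crossing the boundary of W has an edge in the cut. -/
theorem exists_cross [DecidableEq F] [Fintype E] (lf rt : A → F) (p q : E → F)
    (hA : ∀ a, ∃ e, p e = lf a ∧ q e = rt a) (W : Finset F) (u v : F)
    (h : Reach lf rt u v) : ¬ (u ∈ W ↔ v ∈ W) →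
      ∃ e ∈ cut p q W, Reach lf rt u (p e) ∧ Reach lf rt (q e) v := by
  induction h with
  | refl => intro h; exact absurd Iff.rfl h
  | @tail b c hub hbc ih =>
    intro hne
    by_cases h1 : (u ∈ W ↔ b ∈ W)
    · obtain ⟨a, ha1, ha2⟩ := hbc
      obtain ⟨e, he1, he2⟩ := hA a
      refine ⟨e, ?_, ?_, ?_⟩
      · simp only [cut, Finset.mem_filter, Finset.mem_univ, true_and]
        rw [he1, he2, ha1, ha2, ← h1]
        exact hne
      · rw [he1, ha1]; exact hub
      · rw [he2, ha2]; exact Relation.ReflTransGen.refl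
    · obtain ⟨e, he, he1, he2⟩ := ih h1
      exact ⟨e, he, he1, Relation.ReflTransGen.tail he2 hbc⟩

/-- H is acyclic and connected, every arc of H is parallel to an edge of E, the odd wild vertices
are pairwise comparable. -/
theorem vector_of_wild_chain [Fintype F] [DecidableEq F] [Fintype E] (lf rt : A → F)
    (p q : E → F) (hE : ∀ e, ∃ a, lf a = p e ∧ rt a = q e)
    (hA : ∀ a, ∃ e, p e = lf a ∧ q e = rt a) (r : F) (t : ℕ)
    (hc : ∀ X : Finset F, Side lf rt r X → 2 * t ≤ (cut p q X).card)
    (hb : ∀ X : Finset F, X.Nonempty → X ≠ Finset.univ → 1 ≤ (cut p q X).card)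
    (hac : ∀ u v, Reach lf rt u v → Reach lf rt v u → u = v)
    (hw : ∀ u v, Wild lf rt r u → Wild lf rt r v → Odd (deg p q u) → Odd (deg p q v) →
      Reach lf rt u v ∨ Reach lf rt v u) :
    ∃ m : F → ℕ, GoodVec lf rt p q r t m := by
  classical
  set W0 : Finset F := Finset.univ.filter (fun v => Wild lf rt r v ∧ Odd (deg p q v)) with hW0
  obtain ⟨f, hf1, hf2, hf3, hf4⟩ := exists_enum (Reach lf rt)
    (fun x => Relation.ReflTransGen.refl) (fun x y z => Relation.ReflTransGen.trans) r W0.card W0
    rfl (by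
      intro u hu v hv
      rw [hW0, Finset.mem_filter] at hu hv
      exact hw u v hu.2.1 hv.2.1 hu.2.2 hv.2.2)
  set n := W0.card with hn
  let c : F → ℤ := fun v => ∑ i ∈ Finset.range n, if f i = v then (-1 : ℤ) ^ i else 0
  have hcsum : ∀ Z : Finset F, ∑ v ∈ Z, c v =
      ∑ i ∈ Finset.range n, if f i ∈ Z then (-1 : ℤ) ^ i else 0 := by
    intro Z
    simp only [c]
    rw [Finset.sum_comm]
    apply Finset.sum_congr rfl
    intro i _
    rw [Finset.sum_ite_eq]
  have hcmem : ∀ i < n, c (f i) = (-1) ^ i := by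
    intro i hi
    simp only [c]
    rw [Finset.sum_eq_single_of_mem i (Finset.mem_range.2 hi)]
    · simp
    · intro j hj hji
      rw [if_neg]
      intro h
      exact hji (hf3 j i (Finset.mem_range.1 hj) hi h)
  have hcnot : ∀ v, v ∉ W0 → c v = 0 := by
    intro v hv
    simp only [c]
    apply Finset.sum_eq_zero
    intro i hi
    rw [if_neg]
    intro h
    exact hv (h ▸ hf1 i (Finset.mem_range.1 hi))
  have hcpar : ∀ v, Wild lf rt r v → (2 : ℤ) ∣ (deg p q v : ℤ) + c v := by
    intro v hv
    by_cases h1 : v ∈ W0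
    · obtain ⟨i, hi, hfi⟩ := hf2 v h1
      have h2 : Odd (deg p q v) := by
        rw [hW0, Finset.mem_filter] at h1
        exact h1.2.2
      obtain ⟨k, hk⟩ := h2
      rw [← hfi, hcmem i hi, hfi, hk]
      rcases neg_one_pow_eq_or ℤ i with h3 | h3
      · rw [h3]
        exact ⟨k + 1, by push_cast; ring⟩
      · rw [h3]
        exact ⟨k, by push_cast; ring⟩
    · have h2 : ¬ Odd (deg p q v) := by
        intro h3
        apply h1
        rw [hW0, Finset.mem_filter]
        exact ⟨Finset.mem_univ _, hv, h3⟩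
      rw [Nat.not_odd_iff_even] at h2
      obtain ⟨k, hk⟩ := h2
      rw [hcnot v h1, hk]
      exact ⟨k, by push_cast; ring⟩
  have closed_enter : ∀ X : Finset F, NoEnter lf rt X → ∀ u v, Reach lf rt u v → v ∈ X →
      u ∈ X := by
    intro X hX u v huv hv
    induction huv using Relation.ReflTransGen.head_induction_on with
    | refl => exact hv
    | head hab _ ih =>
      obtain ⟨a, ha1, ha2⟩ := hab
      rw [← ha1]
      exact hX a (ha2 ▸ ih)
  have closed_leave : ∀ X : Finset F, NoLeave lf rt X → ∀ u v, Reach lf rt u v → u ∈ X →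
      v ∈ X := by
    intro X hX u v huv hu
    induction huv with
    | refl => exact hu
    | tail _ hab ih =>
      obtain ⟨a, ha1, ha2⟩ := hab
      rw [← ha2]
      exact hX a (ha1 ▸ ih)
  apply vector_of_signs lf rt p q hE r t c hc hcpar
  · intro X Y hX hY hrX hrY _ _ _
    have hlow : -1 ≤ ∑ v ∈ X ∩ Y, c v := by
      obtain ⟨b, _, hb'⟩ := chain_initial n (fun i => f i ∈ X)
        (fun i j hij hj h => closed_enter X hX _ _ (hf4 i j hij hj) h)
      obtain ⟨a, ha'⟩ := chain_final n (fun i => f i ∈ Y)
        (fun i j hij hj h => closed_leave Y hY _ _ (hf4 i j hij hj) h)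
      rw [hcsum, ← Finset.sum_filter]
      have h1 : (Finset.range n).filter (fun i => f i ∈ X ∩ Y) = Finset.Ico a (min b n) := by
        ext i
        rw [Finset.mem_filter, Finset.mem_range, Finset.mem_inter, Finset.mem_Ico, lt_min_iff]
        constructor
        · rintro ⟨hi, h1, h2⟩
          exact ⟨(ha' i hi).1 h2, (hb' i hi).1 h1, hi⟩
        · rintro ⟨h1, h2, hi⟩
          exact ⟨hi, (hb' i hi).2 h2, (ha' i hi).2 h1⟩
      rw [h1]
      exact alt_Ico _ _
    by_cases h2 : 0 ≤ ∑ v ∈ X ∩ Y, c v
    · exact le_trans (neg_nonpos.2 (abs_nonneg _)) h2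
    · have h3 : ∑ v ∈ X ∩ Y, c v = -1 := by omega
      have h4 : (2 : ℤ) ∣ ∑ v ∈ X ∩ Y, ((deg p q v : ℤ) + c v) := by
        apply Finset.dvd_sum
        intro v hv
        exact hcpar v (wild_of_mem hX hY hrX hrY hv)
      rw [Finset.sum_add_distrib, h3] at h4
      have h5 := net_parity p q (X ∩ Y)
      have h6 : net p q (X ∩ Y) ≠ 0 := by
        intro h7
        rw [h7] at h5
        omega
      have h8 : 1 ≤ |net p q (X ∩ Y)| := Int.one_le_abs h6
      omega
  · intro C Z hC hdis hZ hwild
    have hterm : 0 ≤ ∑ X ∈ C, (((cut p q X).card : ℤ) - 2 * t) := by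
      apply Finset.sum_nonneg
      intro X hX
      have := hc X (hC X hX)
      have h2 : ((2 * t : ℕ) : ℤ) ≤ ((cut p q X).card : ℤ) := by exact_mod_cast this
      push_cast at h2
      omega
    set W := C.biUnion id ∪ Z with hWdef
    have hrW : r ∉ W := by
      intro h4
      rw [hWdef, Finset.mem_union, Finset.mem_biUnion] at h4
      rcases h4 with ⟨X, hX, hrX⟩ | h4
      · exact (hC X hX).2.1 hrX
      · exact (hwild r h4).1 Relation.ReflTransGen.refl
    -- the two end segments
    obtain ⟨a, _, ha'⟩ := chain_initial n (fun i => ∃ X ∈ C, NoEnter lf rt X ∧ f i ∈ X)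
      (by
        rintro i j hij hj ⟨X, hX, hXe, hfX⟩
        exact ⟨X, hX, hXe, closed_enter X hXe _ _ (hf4 i j hij hj) hfX⟩)
    obtain ⟨b, hb'⟩ := chain_final n (fun i => ∃ X ∈ C, NoLeave lf rt X ∧ f i ∈ X)
      (by
        rintro i j hij hj ⟨X, hX, hXe, hfX⟩
        exact ⟨X, hX, hXe, closed_leave X hXe _ _ (hf4 i j hij hj) hfX⟩)
    let w : ℕ → ℤ := fun i => if f i ∈ W then 1 else 0
    have hw01 : ∀ i, w i = 0 ∨ w i = 1 := by
      intro i
      simp only [w]
      split_ifs
      · exact Or.inr rfl
      · exact Or.inl rfl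
    have hnotZ : ∀ i, (∃ X ∈ C, f i ∈ X) → f i ∉ Z := by
      rintro i ⟨X, hX, hfX⟩ h
      rw [Finset.disjoint_left] at hZ
      exact hZ (Finset.mem_biUnion.2 ⟨X, hX, hfX⟩) h
    have hsum : ∑ v ∈ Z, c v = ∑ i ∈ Finset.Ico a (min b n), w i * (-1) ^ i := by
      rw [hcsum, ← Finset.sum_filter]
      have h1 : (Finset.range n).filter (fun i => f i ∈ Z) =
          (Finset.Ico a (min b n)).filter (fun i => f i ∈ W) := by
        ext i
        rw [Finset.mem_filter, Finset.mem_filter, Finset.mem_range, Finset.mem_Ico, lt_min_iff]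
        constructor
        · rintro ⟨hi, h1⟩
          refine ⟨⟨?_, ?_, hi⟩, Finset.mem_union_right _ h1⟩
          · by_contra h2
            rw [not_le] at h2
            obtain ⟨X, hX, _, hfX⟩ := (ha' i hi).2 h2
            exact hnotZ i ⟨X, hX, hfX⟩ h1
          · by_contra h2
            rw [not_lt] at h2
            obtain ⟨X, hX, _, hfX⟩ := (hb' i hi).2 h2
            exact hnotZ i ⟨X, hX, hfX⟩ h1
        · rintro ⟨⟨h1, h2, hi⟩, h3⟩
          refine ⟨hi, ?_⟩
          rcases Finset.mem_union.1 h3 with h4 | h4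
          · exfalso
            obtain ⟨X, hX, hfX⟩ := Finset.mem_biUnion.1 h4
            rcases (hC X hX).2.2 with h5 | h5
            · have := (ha' i hi).1 ⟨X, hX, h5, hfX⟩
              omega
            · have := (hb' i hi).1 ⟨X, hX, h5, hfX⟩
              omega
          · exact h4
      rw [h1, Finset.sum_filter]
      apply Finset.sum_congr rfl
      intro i _
      simp only [w]
      split_ifs <;> ring
    have h2S := alt_changes_Ico w hw01 a (min b n)
    rw [← hsum] at h2S
    -- the changes are crossed by different edges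
    have hch : ((Finset.Ico a (min b n - 1)).filter (fun i => w i ≠ w (i + 1))).card ≤
        (cut p q W).card := by
      have hex : ∀ i, i ∈ (Finset.Ico a (min b n - 1)).filter (fun i => w i ≠ w (i + 1)) →
          ∃ e, e ∈ cut p q W ∧ Reach lf rt (f i) (p e) ∧ Reach lf rt (q e) (f (i + 1)) := by
        intro i hi
        rw [Finset.mem_filter, Finset.mem_Ico] at hi
        obtain ⟨⟨_, hi2⟩, hi3⟩ := hi
        have hlt : i + 1 < n := by
          have := min_le_right b n
          omega
        obtain ⟨e, he, he1, he2⟩ := exists_cross lf rt p q hA W (f i) (f (i + 1))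
          (hf4 i (i + 1) (Nat.le_succ i) hlt) (by
            intro h
            apply hi3
            simp only [w]
            by_cases h' : f i ∈ W
            · rw [if_pos h', if_pos (h.1 h')]
            · rw [if_neg h', if_neg (fun h'' => h' (h.2 h''))])
        exact ⟨e, he, he1, he2⟩
      choose g hg1 hg2 hg3 using hex
      have hne : ∀ i j (hi : i ∈ (Finset.Ico a (min b n - 1)).filter (fun i => w i ≠ w (i + 1)))
          (hj : j ∈ (Finset.Ico a (min b n - 1)).filter (fun i => w i ≠ w (i + 1))),
          i < j → g i hi ≠ g j hj := by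
        intro i j hi hj hij heq
        have hjn : j < n := by
          have h1 := (Finset.mem_Ico.1 (Finset.mem_filter.1 hj).1).2
          have := min_le_right b n
          omega
        have h1 : Reach lf rt (q (g i hi)) (p (g i hi)) := by
          refine (hg3 i hi).trans ((hf4 (i + 1) j hij hjn).trans ?_)
          rw [heq]
          exact hg2 j hj
        obtain ⟨a', ha1, ha2⟩ := hE (g i hi)
        have h2 : Reach lf rt (p (g i hi)) (q (g i hi)) :=
          Relation.ReflTransGen.single ⟨a', ha1, ha2⟩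
        have h3 := hac _ _ h2 h1
        have h4 := hg1 i hi
        simp only [cut, Finset.mem_filter, Finset.mem_univ, true_and] at h4
        rw [h3] at h4
        exact h4 Iff.rfl
      rw [← Finset.card_attach]
      apply Finset.card_le_card_of_injOn (fun i => g i.1 i.2)
      · intro i _
        exact hg1 i.1 i.2
      · intro i _ j _ hij
        rcases lt_trichotomy i.1 j.1 with h | h | h
        · exact absurd hij (hne i.1 j.1 i.2 j.2 h)
        · exact Subtype.ext h
        · exact absurd hij.symm (hne j.1 i.1 j.2 i.2 h)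
    have h1S : 1 ≤ ∑ v ∈ Z, c v → 1 ≤ ((cut p q W).card : ℤ) := by
      intro h
      have hne : Z.Nonempty := by
        by_contra hne
        rw [Finset.not_nonempty_iff_eq_empty] at hne
        rw [hne, Finset.sum_empty] at h
        omega
      have h2 : 1 ≤ (cut p q W).card := by
        apply hb
        · exact hne.mono Finset.subset_union_right
        · intro h3
          exact hrW (h3 ▸ Finset.mem_univ r)
      exact_mod_cast h2
    have h3S : (((Finset.Ico a (min b n - 1)).filter (fun i => w i ≠ w (i + 1))).card : ℤ) ≤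
        ((cut p q W).card : ℤ) := by exact_mod_cast hch
    omega

end H43.OF
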