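import Pool.Agent.H43.OF.Trunc
import Pool.Agent.H37.OS.Few

/-!
# Out-degree vectors from signs on the wild vertices

H: arcs A from lf to rt on the vertex set F (the dual digraph), r a vertex. A vertex is wild if it
is not comparable with r. Edges E from p to q (the arcs counted with weights): every edge is
parallel to an arc of H. t: every directed cut of H has at least 2t edges of E.
-/

namespace H43.OF

open H37.OS

variable {F A E : Type*}

/-- There is a directed path from x to y. -/
def Reach (lf rt : A → F) (x y : F) : Prop :=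
  Relation.ReflTransGen (fun u v => ∃ a, lf a = u ∧ rt a = v) x y

/-- v is not comparable with r. -/
def Wild (lf rt : A → F) (r v : F) : Prop := ¬ Reach lf rt v r ∧ ¬ Reach lf rt r v

/-- X is one side, without r, of a directed cut (or isolated from the rest). -/
def Side [DecidableEq F] (lf rt : A → F) (r : F) (X : Finset F) : Prop :=
  X.Nonempty ∧ r ∉ X ∧ (NoEnter lf rt X ∨ NoLeave lf rt X)

/-- Edges leaving X minus edges entering X. -/
def net [DecidableEq F] [Fintype E] (p q : E → F) (X : Finset F) : ℤ :=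
  ((Finset.univ.filter (fun e => p e ∈ X ∧ q e ∉ X)).card : ℤ) -
    (Finset.univ.filter (fun e => p e ∉ X ∧ q e ∈ X)).card

/-- m is a good vector: an out-degree vector of the edges which gives t to all sides. -/
def GoodVec [Fintype F] [DecidableEq F] [Fintype E] (lf rt : A → F) (p q : E → F) (r : F) (t : ℕ)
    (m : F → ℕ) : Prop :=
  ∑ f, m f = Fintype.card E ∧
    (∀ X : Finset F, (inside p q X).card ≤ ∑ f ∈ X, m f) ∧
    ∀ X : Finset F, Side lf rt r X → (inside p q X).card + t ≤ ∑ f ∈ X, m f

private theorem cnd_super [DecidableEq F] [Fintype E] (p q : E → F) (X Y : Finset F) :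
    ((inside p q X).card : ℤ) + (inside p q Y).card ≤
      (inside p q (X ∩ Y)).card + (inside p q (X ∪ Y)).card := by
  classical
  have h1 : (inside p q X ∪ inside p q Y).card + (inside p q X ∩ inside p q Y).card =
      (inside p q X).card + (inside p q Y).card := Finset.card_union_add_card_inter _ _
  have h2 : inside p q X ∪ inside p q Y ⊆ inside p q (X ∪ Y) := by
    intro e he
    rw [Finset.mem_union, mem_inside, mem_inside] at he
    rw [mem_inside, Finset.mem_union, Finset.mem_union]
    tauto
  have h3 : inside p q X ∩ inside p q Y = inside p q (X ∩ Y) := by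
    ext e
    rw [Finset.mem_inter, mem_inside, mem_inside, mem_inside, Finset.mem_inter,
      Finset.mem_inter]
    tauto
  have h4 := Finset.card_le_card h2
  rw [h3] at h1
  omega

private theorem cnd_cut [DecidableEq F] [Fintype E] (p q : E → F) (X : Finset F) :
    (cut p q X).card = (Finset.univ.filter (fun e => p e ∈ X ∧ q e ∉ X)).card +
      (Finset.univ.filter (fun e => p e ∉ X ∧ q e ∈ X)).card := by
  classical
  rw [← Finset.card_union_of_disjoint]
  · congr 1
    ext e
    simp only [cut, Finset.mem_filter, Finset.mem_univ, true_and, Finset.mem_union]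
    tauto
  · rw [Finset.disjoint_left]
    intro e h1 h2
    simp only [Finset.mem_filter, Finset.mem_univ, true_and] at h1 h2
    exact h2.1 h1.1

private theorem cnd_wild [DecidableEq F] {lf rt : A → F} {r v : F} {X Y : Finset F}
    (hX : NoEnter lf rt X) (hY : NoLeave lf rt Y) (hrX : r ∉ X) (hrY : r ∉ Y)
    (hv : v ∈ X ∩ Y) : Wild lf rt r v := by
  rw [Finset.mem_inter] at hv
  constructor
  · intro h
    apply hrY
    have key : ∀ u, Reach lf rt v u → u ∈ Y := by
      intro u hu
      induction hu with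
      | refl => exact hv.2
      | tail _ hab ih =>
        obtain ⟨a, ha1, ha2⟩ := hab
        rw [← ha2]
        exact hY a (ha1 ▸ ih)
    exact key r h
  · intro h
    apply hrX
    have key : ∀ u, Reach lf rt u v → u ∈ X := by
      intro u hu
      induction hu using Relation.ReflTransGen.head_induction_on with
      | refl => exact hv.1
      | head hab _ ih =>
        obtain ⟨a, ha1, ha2⟩ := hab
        rw [← ha1]
        exact hX a (ha2 ▸ ih)
    exact key r h

/-- edges inside X: inside X minus Y, or inside Z = X cap Y, or entering Z (X closed under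
predecessors, Y under successors) -/
private theorem cnd_in1 [DecidableEq F] [Fintype E] {lf rt : A → F} {p q : E → F}
    (hE : ∀ e, ∃ a, lf a = p e ∧ rt a = q e) {X Y : Finset F} (hY : NoLeave lf rt Y) :
    (inside p q X).card ≤ (inside p q (X \ Y)).card + (inside p q (X ∩ Y)).card +
      (Finset.univ.filter (fun e => p e ∉ X ∩ Y ∧ q e ∈ X ∩ Y)).card := by
  classical
  have h : inside p q X ⊆ (inside p q (X \ Y) ∪ inside p q (X ∩ Y)) ∪
      Finset.univ.filter (fun e => p e ∉ X ∩ Y ∧ q e ∈ X ∩ Y) := by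
    intro e he
    rw [mem_inside] at he
    obtain ⟨a, ha1, ha2⟩ := hE e
    have h3 : p e ∈ Y → q e ∈ Y := by
      intro h
      rw [← ha2]
      exact hY a (ha1 ▸ h)
    simp only [Finset.mem_union, mem_inside, Finset.mem_filter, Finset.mem_univ, true_and,
      Finset.mem_sdiff, Finset.mem_inter]
    tauto
  refine (Finset.card_le_card h).trans ((Finset.card_union_le _ _).trans ?_)
  exact Nat.add_le_add_right (Finset.card_union_le _ _) _

private theorem cnd_in2 [DecidableEq F] [Fintype E] {lf rt : A → F} {p q : E → F}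
    (hE : ∀ e, ∃ a, lf a = p e ∧ rt a = q e) {X Y : Finset F} (hX : NoEnter lf rt X) :
    (inside p q Y).card ≤ (inside p q (Y \ X)).card + (inside p q (X ∩ Y)).card +
      (Finset.univ.filter (fun e => p e ∈ X ∩ Y ∧ q e ∉ X ∩ Y)).card := by
  classical
  have h : inside p q Y ⊆ (inside p q (Y \ X) ∪ inside p q (X ∩ Y)) ∪
      Finset.univ.filter (fun e => p e ∈ X ∩ Y ∧ q e ∉ X ∩ Y) := by
    intro e he
    rw [mem_inside] at he
    obtain ⟨a, ha1, ha2⟩ := hE e
    have h3 : q e ∈ X → p e ∈ X := by
      intro h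
      rw [← ha1]
      exact hX a (ha2 ▸ h)
    simp only [Finset.mem_union, mem_inside, Finset.mem_filter, Finset.mem_univ, true_and,
      Finset.mem_sdiff, Finset.mem_inter]
    tauto
  refine (Finset.card_le_card h).trans ((Finset.card_union_le _ _).trans ?_)
  exact Nat.add_le_add_right (Finset.card_union_le _ _) _

/-- The vector from the signs. -/
theorem vector_of_signs [Fintype F] [DecidableEq F] [Fintype E] (lf rt : A → F) (p q : E → F)
    (hE : ∀ e, ∃ a, lf a = p e ∧ rt a = q e) (r : F) (t : ℕ) (c : F → ℤ)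
    (hc : ∀ X : Finset F, Side lf rt r X → 2 * t ≤ (cut p q X).card)
    (hpar : ∀ v, Wild lf rt r v → (2 : ℤ) ∣ (deg p q v : ℤ) + c v)
    (h1 : ∀ X Y : Finset F, NoEnter lf rt X → NoLeave lf rt Y → r ∉ X → r ∉ Y →
      (X ∩ Y).Nonempty → (X \ Y).Nonempty → (Y \ X).Nonempty →
      -|net p q (X ∩ Y)| ≤ ∑ v ∈ X ∩ Y, c v)
    (h2 : ∀ (C : Finset (Finset F)) (Z : Finset F), (∀ X ∈ C, Side lf rt r X) →
      (C : Set (Finset F)).PairwiseDisjoint id → Disjoint (C.biUnion id) Z →
      (∀ v ∈ Z, Wild lf rt r v) →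
      ∑ v ∈ Z, c v ≤ (cut p q (C.biUnion id ∪ Z)).card +
        ∑ X ∈ C, (((cut p q X).card : ℤ) - 2 * t)) :
    ∃ m : F → ℕ, GoodVec lf rt p q r t m := by
  classical
  set l : F → ℤ := fun v => if Wild lf rt r v then ((deg p q v : ℤ) + c v) / 2 else 0 with hl
  have hl2 : ∀ v, Wild lf rt r v → 2 * l v = (deg p q v : ℤ) + c v := by
    intro v hv
    simp only [hl, if_pos hv]
    exact Int.mul_ediv_cancel' (hpar v hv)
  have hl0 : ∀ v, ¬ Wild lf rt r v → l v = 0 := by
    intro v hv
    simp only [hl, if_neg hv]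
  set f : Finset F → ℤ := fun X => (Fintype.card E : ℤ) - (inside p q Xᶜ).card with hf
  set p' : Finset F → ℤ := fun X => ((inside p q X).card : ℤ) + t with hp'
  set F1 : Finset F → Prop := fun X => X.Nonempty ∧ r ∉ X ∧ NoEnter lf rt X with hF1
  set F2 : Finset F → Prop := fun X => X.Nonempty ∧ r ∉ X ∧ NoLeave lf rt X with hF2
  have hside : ∀ X, F1 X ∨ F2 X → Side lf rt r X := by
    rintro X (h | h)
    · exact ⟨h.1, h.2.1, Or.inl h.2.2⟩
    · exact ⟨h.1, h.2.1, Or.inr h.2.2⟩
  have hdegZ : ∀ Z : Finset F, (∀ v ∈ Z, Wild lf rt r v) →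
      2 * ∑ v ∈ Z, l v = 2 * ((inside p q Z).card : ℤ) + (cut p q Z).card + ∑ v ∈ Z, c v := by
    intro Z hZ
    have h := sum_deg p q Z
    rw [Finset.mul_sum, Finset.sum_congr rfl fun v hv => hl2 v (hZ v hv),
      Finset.sum_add_distrib]
    have h' : ∑ v ∈ Z, (deg p q v : ℤ) = 2 * ((inside p q Z).card : ℤ) + (cut p q Z).card := by
      exact_mod_cast h
    rw [h']
  have S : Sys F1 F2 p' l := by
    refine ⟨fun X h => h.1, fun X h => h.1, ?_, ?_, ?_⟩
    · intro X Y hX hY hXY
      refine ⟨⟨hXY, fun h => hX.2.1 (Finset.mem_inter.mp h).1, ?_⟩,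
        ⟨hX.1.mono Finset.subset_union_left,
          fun h => (Finset.mem_union.mp h).elim hX.2.1 hY.2.1, ?_⟩, ?_⟩
      · intro a ha
        rw [Finset.mem_inter] at ha ⊢
        exact ⟨hX.2.2 a ha.1, hY.2.2 a ha.2⟩
      · intro a ha
        rw [Finset.mem_union] at ha ⊢
        exact ha.imp (hX.2.2 a) (hY.2.2 a)
      · have := cnd_super p q X Y
        simp only [hp']
        linarith
    · intro X Y hX hY hXY
      refine ⟨⟨hXY, fun h => hX.2.1 (Finset.mem_inter.mp h).1, ?_⟩,
        ⟨hX.1.mono Finset.subset_union_left,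
          fun h => (Finset.mem_union.mp h).elim hX.2.1 hY.2.1, ?_⟩, ?_⟩
      · intro a ha
        rw [Finset.mem_inter] at ha ⊢
        exact ⟨hX.2.2 a ha.1, hY.2.2 a ha.2⟩
      · intro a ha
        rw [Finset.mem_union] at ha ⊢
        exact ha.imp (hX.2.2 a) (hY.2.2 a)
      · have := cnd_super p q X Y
        simp only [hp']
        linarith
    · intro X Y hX hY hXY hXdY hYdX
      refine ⟨⟨hXdY, fun h => hX.2.1 (Finset.mem_sdiff.mp h).1, ?_⟩,
        ⟨hYdX, fun h => hY.2.1 (Finset.mem_sdiff.mp h).1, ?_⟩, ?_⟩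
      · intro a ha
        rw [Finset.mem_sdiff] at ha ⊢
        exact ⟨hX.2.2 a ha.1, fun h => ha.2 (hY.2.2 a h)⟩
      · intro a ha
        rw [Finset.mem_sdiff] at ha ⊢
        exact ⟨hY.2.2 a ha.1, fun h => ha.2 (hX.2.2 a h)⟩
      · have hw : ∀ v ∈ X ∩ Y, Wild lf rt r v := fun v hv =>
          cnd_wild hX.2.2 hY.2.2 hX.2.1 hY.2.1 hv
        have e1 := hdegZ _ hw
        have e2 := cnd_cut p q (X ∩ Y)
        have e3 := cnd_in1 hE (X := X) hY.2.2
        have e4 := cnd_in2 hE (Y := Y) hX.2.2
        have e5 := h1 X Y hX.2.2 hY.2.2 hX.2.1 hY.2.1 hXY hXdY hYdX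
        unfold net at e5
        simp only [hp']
        set a1 := (Finset.univ.filter (fun e => p e ∈ X ∩ Y ∧ q e ∉ X ∩ Y)).card
        set a2 := (Finset.univ.filter (fun e => p e ∉ X ∩ Y ∧ q e ∈ X ∩ Y)).card
        rcases le_total (0 : ℤ) ((a1 : ℤ) - a2) with hs | hs
        · left
          rw [abs_of_nonneg hs] at e5
          have : (cut p q (X ∩ Y)).card = a1 + a2 := e2
          omega
        · right
          rw [abs_of_nonpos hs] at e5
          have : (cut p q (X ∩ Y)).card = a1 + a2 := e2
          omega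
  have hfm : ∀ U W : Finset F, U ⊆ W → f U ≤ f W := by
    intro U W hUW
    simp only [hf]
    have : (inside p q Wᶜ).card ≤ (inside p q Uᶜ).card := by
      apply Finset.card_le_card
      intro e he
      rw [mem_inside, Finset.mem_compl, Finset.mem_compl] at he ⊢
      exact ⟨fun h => he.1 (hUW h), fun h => he.2 (hUW h)⟩
    omega
  obtain ⟨m, hm1, hm2, hm3, hm4⟩ := exists_vector S f (by
    intro X Y
    have h := cnd_super p q Xᶜ Yᶜ
    simp only [hf, Finset.compl_inter, Finset.compl_union]
    linarith) (by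
    have : inside p q (∅ : Finset F)ᶜ = Finset.univ := by
      ext e
      rw [mem_inside]
      simp
    simp only [hf, this, Finset.card_univ, sub_self]) (by
    intro W C hC
    obtain ⟨hC1, hC2, hC3⟩ := hC
    set Z : Finset F := (W \ C.biUnion id).filter (fun v => Wild lf rt r v) with hZ
    have hZw : ∀ v ∈ Z, Wild lf rt r v := fun v hv => (Finset.mem_filter.mp hv).2
    have hdis : Disjoint (C.biUnion id) Z := by
      rw [Finset.disjoint_left]
      intro v hv hv'
      exact (Finset.mem_sdiff.mp (Finset.mem_filter.mp hv').1).2 hv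
    have hsl : ∑ v ∈ W \ C.biUnion id, l v = ∑ v ∈ Z, l v := by
      rw [hZ, Finset.sum_filter]
      refine Finset.sum_congr rfl fun v _ => ?_
      split_ifs with h
      · rfl
      · exact hl0 v h
    have h2' := h2 C Z (fun X hX => hside X (hC1 X hX)) hC3 hdis hZw
    have hU : C.biUnion id ∪ Z ⊆ W := by
      apply Finset.union_subset
      · intro v hv
        rw [Finset.mem_biUnion] at hv
        obtain ⟨X, hX, hvX⟩ := hv
        exact hC2 X hX hvX
      · intro v hv
        exact (Finset.mem_sdiff.mp (Finset.mem_filter.mp hv).1).1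
    refine le_trans ?_ (hfm _ _ hU)
    have hd1 : ∑ v ∈ C.biUnion id ∪ Z, (deg p q v : ℤ) =
        ∑ X ∈ C, ∑ v ∈ X, (deg p q v : ℤ) + ∑ v ∈ Z, (deg p q v : ℤ) := by
      rw [Finset.sum_union hdis, Finset.sum_biUnion hC3]
      simp only [id]
    have hd2 : ∀ X : Finset F, ∑ v ∈ X, (deg p q v : ℤ) =
        2 * ((inside p q X).card : ℤ) + (cut p q X).card := by
      intro X
      exact_mod_cast sum_deg p q X
    rw [hd2, hd2 Z, Finset.sum_congr rfl fun X _ => hd2 X, Finset.sum_add_distrib,
      ← Finset.mul_sum] at hd1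
    have e1 := hdegZ Z hZw
    have e2 := card_split p q (C.biUnion id ∪ Z)
    unfold val
    rw [hsl]
    simp only [hp', hf]
    rw [Finset.sum_add_distrib]
    rw [Finset.sum_sub_distrib] at h2'
    simp only [Finset.sum_const, nsmul_eq_mul] at h2' ⊢
    have e2' : ((inside p q (C.biUnion id ∪ Z)).card : ℤ) + (inside p q (C.biUnion id ∪ Z)ᶜ).card
        + (cut p q (C.biUnion id ∪ Z)).card = Fintype.card E := by exact_mod_cast e2
    have e3 : (C.card : ℤ) * (2 * (t : ℤ)) = 2 * ((C.card : ℤ) * t) := by ring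
    rw [e3] at h2'
    linarith)
  have hin : ∀ X : Finset F, ((inside p q X).card : ℤ) ≤ ∑ v ∈ X, m v := by
    intro X
    have h := hm2 Xᶜ
    have h' := Finset.sum_add_sum_compl X m
    rw [hm1] at h'
    simp only [hf, compl_compl] at h h'
    have h0 : ((inside p q (Finset.univ : Finset F)ᶜ).card : ℤ) = 0 := by
      have : inside p q (Finset.univ : Finset F)ᶜ = ∅ := by
        ext e
        rw [mem_inside]
        simp
      rw [this]
      simp
    rw [h0] at h'
    linarith
  have hm0 : ∀ v, 0 ≤ m v := by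
    intro v
    have h := hin {v}
    rw [Finset.sum_singleton] at h
    exact (Int.natCast_nonneg _).trans h
  have hcast : ∀ X : Finset F, ((∑ v ∈ X, (m v).toNat : ℕ) : ℤ) = ∑ v ∈ X, m v := by
    intro X
    rw [Nat.cast_sum]
    exact Finset.sum_congr rfl fun v _ => Int.toNat_of_nonneg (hm0 v)
  refine ⟨fun v => (m v).toNat, ?_, ?_, ?_⟩
  · have h := hcast Finset.univ
    have h0 : ((inside p q (Finset.univ : Finset F)ᶜ).card : ℤ) = 0 := by
      have : inside p q (Finset.univ : Finset F)ᶜ = ∅ := by
        ext e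
        rw [mem_inside]
        simp
      rw [this]
      simp
    rw [hm1] at h
    simp only [hf] at h
    rw [h0, sub_zero] at h
    exact_mod_cast h
  · intro X
    have h := hin X
    rw [← hcast X] at h
    exact_mod_cast h
  · rintro X ⟨hX1, hX2, hX3⟩
    have h := hm3 X (hX3.imp (fun h => ⟨hX1, hX2, h⟩) (fun h => ⟨hX1, hX2, h⟩))
    simp only [hp'] at h
    rw [← hcast X] at h
    exact_mod_cast h

end H43.OF
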