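import Pool.Agent.H43.OF.Cond

/-!
# Any number of odd vertices, with a loss
-/

namespace H43.OF

open H37.OS

/-- Convolution of a submodular function with a modular one. -/
theorem exists_conv {V : Type*} [DecidableEq V] (g : Finset V → ℤ) (c : V → ℤ)
    (hg : ∀ X Y, g (X ∩ Y) + g (X ∪ Y) ≤ g X + g Y) :
    ∃ U : Finset V → ℤ, (∀ X Y, U (X ∩ Y) + U (X ∪ Y) ≤ U X + U Y) ∧
      (∀ W R, R ⊆ W → U W ≤ ∑ v ∈ W \ R, c v + g R) ∧
      ∀ W, ∃ R, R ⊆ W ∧ U W = ∑ v ∈ W \ R, c v + g R := by
  have hne : ∀ W : Finset V, W.powerset.Nonempty := fun W => ⟨∅, Finset.empty_mem_powerset W⟩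
  have hU1 : ∀ W R : Finset V, R ⊆ W →
      W.powerset.inf' (hne W) (fun R => ∑ v ∈ W \ R, c v + g R) ≤ ∑ v ∈ W \ R, c v + g R :=
    fun W R hR => Finset.inf'_le _ (Finset.mem_powerset.mpr hR)
  have hU2 : ∀ W : Finset V, ∃ R, R ⊆ W ∧
      W.powerset.inf' (hne W) (fun R => ∑ v ∈ W \ R, c v + g R) = ∑ v ∈ W \ R, c v + g R := by
    intro W
    obtain ⟨R, hR, h⟩ := Finset.exists_mem_eq_inf' (hne W) (fun R => ∑ v ∈ W \ R, c v + g R)
    exact ⟨R, Finset.mem_powerset.mp hR, h⟩
  refine ⟨fun W => W.powerset.inf' (hne W) (fun R => ∑ v ∈ W \ R, c v + g R), ?_, hU1, hU2⟩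
  intro X Y
  obtain ⟨R, hR, hRe⟩ := hU2 X
  obtain ⟨Q, hQ, hQe⟩ := hU2 Y
  have h1 := hU1 (X ∩ Y) (R ∩ Q) (Finset.inter_subset_inter hR hQ)
  have h2 := hU1 (X ∪ Y) (R ∪ Q) (Finset.union_subset_union hR hQ)
  have h3 := hg R Q
  have hd : ∀ W S : Finset V, S ⊆ W → ∑ v ∈ W \ S, c v = ∑ v ∈ W, c v - ∑ v ∈ S, c v := by
    intro W S hS
    have := Finset.sum_sdiff (f := c) hS
    linarith
  have hm1 := Finset.sum_union_inter (s₁ := X) (s₂ := Y) (f := c)
  have hm2 := Finset.sum_union_inter (s₁ := R) (s₂ := Q) (f := c)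
  rw [hd _ _ (Finset.inter_subset_inter hR hQ)] at h1
  rw [hd _ _ (Finset.union_subset_union hR hQ)] at h2
  rw [hd _ _ hR] at hRe
  rw [hd _ _ hQ] at hQe
  show X.powerset.inf' (hne X) _ + _ ≥ _
  simp only [] at *
  linarith

/-- Raising the value at V keeps a function supermodular. -/
theorem super_raise {V : Type*} [Fintype V] [DecidableEq V] (P : Finset V → ℤ) (e : ℤ)
    (hP : ∀ X Y, P X + P Y ≤ P (X ∩ Y) + P (X ∪ Y)) (he : P Finset.univ ≤ e) :
    ∀ X Y, (fun X => if X = Finset.univ then e else P X) X +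
      (fun X => if X = Finset.univ then e else P X) Y ≤
      (fun X => if X = Finset.univ then e else P X) (X ∩ Y) +
      (fun X => if X = Finset.univ then e else P X) (X ∪ Y) := by
  intro X Y
  set P' : Finset V → ℤ := fun X => if X = Finset.univ then e else P X with hP'
  have hge : ∀ X, P X ≤ P' X := by
    intro X
    simp only [hP']
    split_ifs with h
    · rw [h]; exact he
    · exact le_refl _
  by_cases hX : X = Finset.univ
  · subst hX
    rw [Finset.univ_inter, Finset.union_eq_left.mpr (Finset.subset_univ Y)]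
    linarith
  by_cases hY : Y = Finset.univ
  · subst hY
    rw [Finset.inter_univ, Finset.union_eq_right.mpr (Finset.subset_univ X)]
  have h3 : P' X = P X := by simp only [hP']; rw [if_neg hX]
  have h4 : P' Y = P Y := by simp only [hP']; rw [if_neg hY]
  have h1 := hge (X ∩ Y)
  have h2 := hge (X ∪ Y)
  have h5 := hP X Y
  linarith

variable {F A E : Type*}

theorem inside_super [DecidableEq F] [Fintype E] (p q : E → F) (X Y : Finset F) :
    ((inside p q X).card : ℤ) + (inside p q Y).card ≤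
      (inside p q (X ∩ Y)).card + (inside p q (X ∪ Y)).card := by
  classical
  have h1 : (inside p q X ∪ inside p q Y).card + (inside p q X ∩ inside p q Y).card =
      (inside p q X).card + (inside p q Y).card := Finset.card_union_add_card_inter _ _
  have h2 : inside p q X ∪ inside p q Y ⊆ inside p q (X ∪ Y) := by
    intro e he
    rw [Finset.mem_union, mem_inside, mem_inside] at he
    rw [mem_inside, Finset.mem_union, Finset.mem_union]
    tauto
  have h3 : inside p q X ∩ inside p q Y = inside p q (X ∩ Y) := by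
    ext e
    rw [Finset.mem_inter, mem_inside, mem_inside, mem_inside, Finset.mem_inter, Finset.mem_inter]
    tauto
  have h4 := Finset.card_le_card h2
  rw [h3] at h1
  have : (inside p q X).card + (inside p q Y).card ≤
      (inside p q (X ∩ Y)).card + (inside p q (X ∪ Y)).card := by omega
  exact_mod_cast this

theorem noEnter_inter [DecidableEq F] {lf rt : A → F} {X Y : Finset F} (hX : NoEnter lf rt X)
    (hY : NoEnter lf rt Y) : NoEnter lf rt (X ∩ Y) ∧ NoEnter lf rt (X ∪ Y) := by
  constructor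
  · intro a ha
    rw [Finset.mem_inter] at ha ⊢
    exact ⟨hX a ha.1, hY a ha.2⟩
  · intro a ha
    rw [Finset.mem_union] at ha ⊢
    exact ha.imp (hX a) (hY a)

theorem noLeave_inter [DecidableEq F] {lf rt : A → F} {X Y : Finset F} (hX : NoLeave lf rt X)
    (hY : NoLeave lf rt Y) : NoLeave lf rt (X ∩ Y) ∧ NoLeave lf rt (X ∪ Y) := by
  constructor
  · intro a ha
    rw [Finset.mem_inter] at ha ⊢
    exact ⟨hX a ha.1, hY a ha.2⟩
  · intro a ha
    rw [Finset.mem_union] at ha ⊢
    exact ha.imp (hX a) (hY a)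

/-- The truncation of one of the two families, with the value |E| at V. -/
theorem one_side [Fintype F] [DecidableEq F] [Fintype E] (p q : E → F) (r : F) (t : ℕ)
    (F1 : Finset F → Prop)
    (hF : ∀ X, F1 X → X.Nonempty ∧ 2 * t ≤ (cut p q X).card)
    (hcl : ∀ X Y, F1 X → F1 Y → (X ∩ Y).Nonempty → F1 (X ∩ Y) ∧ F1 (X ∪ Y)) :
    ∃ P : Finset F → ℤ, P ∅ = 0 ∧ (∀ X Y, P X + P Y ≤ P (X ∩ Y) + P (X ∪ Y)) ∧
      (∀ X, F1 X → ((inside p q X).card : ℤ) + t ≤ P X) ∧ (∀ v, ((deg p q v / 2 : ℕ) : ℤ) ≤ P {v}) ∧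
      (∀ W, 2 * P W ≤ ∑ v ∈ W, (deg p q v : ℤ)) ∧ P Finset.univ = Fintype.card E := by
  classical
  have S : Sys F1 (fun _ => False) (fun X => ((inside p q X).card : ℤ) + t)
      (fun v => ((deg p q v / 2 : ℕ) : ℤ)) := by
    refine ⟨fun X hX => (hF X hX).1, fun X hX => hX.elim, ?_, fun X Y hX => hX.elim,
      fun X Y _ hY => hY.elim⟩
    intro X Y hX hY hXY
    obtain ⟨g1, g2⟩ := hcl X Y hX hY hXY
    refine ⟨g1, g2, ?_⟩
    have := inside_super p q X Y
    linarith
  obtain ⟨P, hP0, hPs, hPF, hPl, hPv⟩ := exists_trunc S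
  have hup : ∀ W, 2 * P W ≤ ∑ v ∈ W, (deg p q v : ℤ) := by
    intro W
    obtain ⟨C, hC, hv⟩ := hPv W
    obtain ⟨hC1, hC2, hC3⟩ := hC
    have hsubW : C.biUnion id ⊆ W := by
      intro v hv
      rw [Finset.mem_biUnion] at hv
      obtain ⟨X, hX, hvX⟩ := hv
      exact hC2 X hX hvX
    rw [hv]
    unfold val
    rw [← Finset.sum_sdiff hsubW, Finset.sum_biUnion hC3, mul_add, add_comm]
    refine add_le_add ?_ ?_
    · rw [Finset.mul_sum]
      refine Finset.sum_le_sum (fun v _ => ?_)
      have : 2 * (deg p q v / 2) ≤ deg p q v := Nat.mul_div_le _ _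
      exact_mod_cast this
    · rw [Finset.mul_sum]
      refine Finset.sum_le_sum (fun X hX => ?_)
      rcases hC1 X hX with h | h
      · have h1 := sum_deg p q X
        have h2 := (hF X h).2
        have h3 : 2 * ((inside p q X).card + t) ≤ ∑ v ∈ X, deg p q v := by omega
        have h4 : ((2 * ((inside p q X).card + t) : ℕ) : ℤ) ≤ ((∑ v ∈ X, deg p q v : ℕ) : ℤ) := by
          exact_mod_cast h3
        push_cast at h4
        exact h4
      · exact h.elim
  have htot : ∑ v, (deg p q v : ℤ) = 2 * Fintype.card E := by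
    have h1 := sum_deg p q Finset.univ
    have h2 : inside p q Finset.univ = Finset.univ := by
      ext e
      rw [mem_inside]
      simp
    have h3 : cut p q Finset.univ = ∅ := by
      ext e
      simp [cut]
    rw [h2, h3, Finset.card_univ, Finset.card_empty, add_zero] at h1
    exact_mod_cast h1
  have hun : P Finset.univ ≤ (Fintype.card E : ℤ) := by
    have := hup Finset.univ
    rw [htot] at this
    linarith
  refine ⟨fun X => if X = Finset.univ then (Fintype.card E : ℤ) else P X, ?_,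
    super_raise P _ hPs hun, ?_, ?_, ?_, ?_⟩
  · have : (∅ : Finset F) ≠ Finset.univ := by
      intro h
      exact Finset.notMem_empty r (h ▸ Finset.mem_univ r)
    simp only []
    rw [if_neg this, hP0]
  · intro X hX
    have h1 := hPF X (Or.inl hX)
    simp only []
    split_ifs with h
    · subst h
      exact h1.trans hun
    · exact h1
  · intro v
    have h1 := hPl v
    simp only []
    split_ifs with h
    · rw [h] at h1
      exact h1.trans hun
    · exact h1
  · intro W
    have h1 := hup W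
    simp only []
    split_ifs with h
    · rw [h, htot]
    · exact h1
  · exact if_pos rfl

/-- k odd vertices, all cuts have at least b edges: t - (k/2 - b)/2 instead of t. -/
theorem vector_of_many [Fintype F] [DecidableEq F] [Fintype E] (lf rt : A → F) (p q : E → F)
    (_hE : ∀ e, ∃ a, lf a = p e ∧ rt a = q e) (r : F) (t b : ℕ)
    (hc : ∀ X : Finset F, Side lf rt r X → 2 * t ≤ (cut p q X).card)
    (hb : ∀ X : Finset F, X.Nonempty → X ≠ Finset.univ → b ≤ (cut p q X).card) :
    ∃ m : F → ℕ, GoodVec lf rt p q r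
      (t - ((Finset.univ.filter (fun v => Odd (deg p q v))).card / 2 - b) / 2) m := by
  classical
  set O : Finset F := Finset.univ.filter (fun v => Odd (deg p q v)) with hO
  set s0 : ℕ := (O.card / 2 - b) / 2 with hs0
  -- the two truncations
  obtain ⟨P1, hP10, hP1s, hP1F, hP1l, hP1u, hP1t⟩ := one_side p q r t
    (fun X => X.Nonempty ∧ r ∉ X ∧ NoEnter lf rt X)
    (fun X hX => ⟨hX.1, hc X ⟨hX.1, hX.2.1, Or.inl hX.2.2⟩⟩)
    (fun X Y hX hY hXY => ⟨⟨hXY, fun h => hX.2.1 (Finset.mem_inter.mp h).1,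
      (noEnter_inter hX.2.2 hY.2.2).1⟩, ⟨hX.1.mono Finset.subset_union_left,
      fun h => (Finset.mem_union.mp h).elim hX.2.1 hY.2.1, (noEnter_inter hX.2.2 hY.2.2).2⟩⟩)
  obtain ⟨P2, hP20, hP2s, hP2F, hP2l, hP2u, hP2t⟩ := one_side p q r t
    (fun X => X.Nonempty ∧ r ∉ X ∧ NoLeave lf rt X)
    (fun X hX => ⟨hX.1, hc X ⟨hX.1, hX.2.1, Or.inr hX.2.2⟩⟩)
    (fun X Y hX hY hXY => ⟨⟨hXY, fun h => hX.2.1 (Finset.mem_inter.mp h).1,
      (noLeave_inter hX.2.2 hY.2.2).1⟩, ⟨hX.1.mono Finset.subset_union_left,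
      fun h => (Finset.mem_union.mp h).elim hX.2.1 hY.2.1, (noLeave_inter hX.2.2 hY.2.2).2⟩⟩)
  have hdegtot : ∑ v, (deg p q v : ℤ) = 2 * Fintype.card E := by
    have h1 := sum_deg p q Finset.univ
    have h2 : inside p q Finset.univ = Finset.univ := by
      ext e
      rw [mem_inside]
      simp
    have h3 : cut p q Finset.univ = ∅ := by
      ext e
      simp [cut]
    rw [h2, h3, Finset.card_univ, Finset.card_empty, add_zero] at h1
    exact_mod_cast h1
  -- the upper function
  obtain ⟨U, hUs, hUle, hUex⟩ := exists_conv (fun R => (Fintype.card E : ℤ) - P2 Rᶜ)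
    (fun v => (((deg p q v + 1) / 2 : ℕ) : ℤ)) (by
      intro X Y
      have h := hP2s Xᶜ Yᶜ
      simp only [Finset.compl_inter, Finset.compl_union]
      linarith)
  have hUge : ∀ W, ∑ v ∈ W, (deg p q v : ℤ) ≤ 2 * U W := by
    intro W
    obtain ⟨R, hR, hRe⟩ := hUex W
    have h1 := hP2u Rᶜ
    have h2 : ∑ v ∈ R, (deg p q v : ℤ) + ∑ v ∈ Rᶜ, (deg p q v : ℤ) = 2 * Fintype.card E := by
      rw [Finset.sum_add_sum_compl, hdegtot]
    have h3 : ∑ v ∈ W \ R, (deg p q v : ℤ) ≤ 2 * ∑ v ∈ W \ R, (((deg p q v + 1) / 2 : ℕ) : ℤ) := by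
      rw [Finset.mul_sum]
      refine Finset.sum_le_sum (fun v _ => ?_)
      have : deg p q v ≤ 2 * ((deg p q v + 1) / 2) := by omega
      exact_mod_cast this
    have h4 := Finset.sum_sdiff (f := fun v => (deg p q v : ℤ)) hR
    rw [hRe]
    linarith
  have hU0 : U ∅ = 0 := by
    have h1 := hUle ∅ ∅ (Finset.Subset.refl _)
    have h2 := hUge ∅
    simp [hP2t] at h1 h2
    omega
  obtain ⟨m, hm⟩ := sandwich P1 U hP1s hUs (fun X => by
    have h1 := hP1u X
    have h2 := hUge X
    linarith) hP10 hU0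
  -- properties of m
  have hmtot : ∑ v, m v = Fintype.card E := by
    have h1 := (hm Finset.univ).1
    have h2 := (hm Finset.univ).2
    have h3 := hUle Finset.univ Finset.univ (Finset.Subset.refl _)
    simp [hP20] at h3
    rw [hP1t] at h1
    linarith
  have hm1 : ∀ X : Finset F, Side lf rt r X → ((inside p q X).card : ℤ) + t ≤ ∑ v ∈ X, m v := by
    intro X hX
    obtain ⟨g1, g2, g3 | g3⟩ := hX
    · exact (hP1F X ⟨g1, g2, g3⟩).trans (hm X).1
    · have h1 := hP2F X ⟨g1, g2, g3⟩
      have h2 := hUle Xᶜ Xᶜ (Finset.Subset.refl _)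
      have h3 := (hm Xᶜ).2
      have h4 := Finset.sum_add_sum_compl X m
      rw [hmtot] at h4
      simp only [Finset.sdiff_self, Finset.sum_empty, zero_add, compl_compl] at h2
      linarith
  have hmv : ∀ v, ((deg p q v / 2 : ℕ) : ℤ) ≤ m v ∧ m v ≤ (((deg p q v + 1) / 2 : ℕ) : ℤ) := by
    intro v
    have h1 := (hm {v}).1
    have h2 := (hm {v}).2
    have h3 := hUle {v} ∅ (Finset.empty_subset _)
    rw [Finset.sum_singleton] at h1 h2
    refine ⟨(hP1l v).trans h1, h2.trans (h3.trans (le_of_eq ?_))⟩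
    simp [hP2t]
  have hsv : ∀ v, 2 * m v ≤ (deg p q v : ℤ) + (if v ∈ O then 1 else 0) ∧
      (deg p q v : ℤ) - (if v ∈ O then 1 else 0) ≤ 2 * m v := by
    intro v
    obtain ⟨h1, h2⟩ := hmv v
    by_cases hv : v ∈ O
    · have ho : Odd (deg p q v) := by
        rw [hO, Finset.mem_filter] at hv
        exact hv.2
      obtain ⟨k, hk⟩ := ho
      rw [if_pos hv]
      rw [hk] at h1 h2 ⊢
      have e1 : (2 * k + 1) / 2 = k := by omega
      have e2 : (2 * k + 1 + 1) / 2 = k + 1 := by omega
      rw [e1] at h1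
      rw [e2] at h2
      push_cast at h1 h2 ⊢
      constructor <;> linarith
    · have ho : ¬ Odd (deg p q v) := by
        intro h
        exact hv (by rw [hO, Finset.mem_filter]; exact ⟨Finset.mem_univ _, h⟩)
      rw [Nat.not_odd_iff_even] at ho
      obtain ⟨k, hk⟩ := ho
      rw [if_neg hv]
      rw [hk] at h1 h2 ⊢
      have e1 : (k + k) / 2 = k := by omega
      have e2 : (k + k + 1) / 2 = k := by omega
      rw [e1] at h1
      rw [e2] at h2
      push_cast at h1 h2 ⊢
      constructor <;> linarith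
  have hsum1 : ∀ W : Finset F, 2 * ∑ v ∈ W, m v ≤ ∑ v ∈ W, (deg p q v : ℤ) + (W ∩ O).card := by
    intro W
    have : ∑ v ∈ W, (2 * m v) ≤ ∑ v ∈ W, ((deg p q v : ℤ) + (if v ∈ O then 1 else 0)) :=
      Finset.sum_le_sum (fun v _ => (hsv v).1)
    rw [Finset.sum_add_distrib, ← Finset.mul_sum, Finset.sum_ite_mem, Finset.sum_const,
      nsmul_eq_mul, mul_one] at this
    exact this
  have hsum2 : ∀ W : Finset F, ∑ v ∈ W, (deg p q v : ℤ) - (W ∩ O).card ≤ 2 * ∑ v ∈ W, m v := by
    intro W
    have : ∑ v ∈ W, ((deg p q v : ℤ) - (if v ∈ O then 1 else 0)) ≤ ∑ v ∈ W, (2 * m v) :=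
      Finset.sum_le_sum (fun v _ => (hsv v).2)
    rw [Finset.sum_sub_distrib, ← Finset.mul_sum, Finset.sum_ite_mem, Finset.sum_const,
      nsmul_eq_mul, mul_one] at this
    exact this
  -- the upper bound f, violated by at most s0
  have hcardsplit : ∀ W : Finset F, (W ∩ O).card + (Wᶜ ∩ O).card = O.card := by
    intro W
    rw [← Finset.card_union_of_disjoint]
    · congr 1
      ext v
      simp only [Finset.mem_union, Finset.mem_inter, Finset.mem_compl]
      tauto
    · rw [Finset.disjoint_left]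
      intro v h1 h2
      rw [Finset.mem_inter] at h1 h2
      exact (Finset.mem_compl.mp h2.1) h1.1
  have hviol : ∀ X : Finset F, ∑ v ∈ X, m v ≤ ((Fintype.card E : ℤ) - (inside p q Xᶜ).card) + s0 := by
    intro X
    have hsd := sum_deg p q X
    have hcs := card_split p q X
    by_cases hX0 : X = ∅
    · subst hX0
      have : (inside p q (∅ : Finset F)ᶜ).card ≤ Fintype.card E := Finset.card_le_univ _
      have h' : ((inside p q (∅ : Finset F)ᶜ).card : ℤ) ≤ Fintype.card E := by exact_mod_cast this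
      rw [Finset.sum_empty]
      have : (0 : ℤ) ≤ s0 := Int.natCast_nonneg _
      linarith
    by_cases hX1 : X = Finset.univ
    · subst hX1
      have h0 : inside p q (Finset.univ : Finset F)ᶜ = ∅ := by
        ext e
        rw [mem_inside]
        simp
      rw [h0, hmtot, Finset.card_empty]
      have : (0 : ℤ) ≤ s0 := Int.natCast_nonneg _
      push_cast
      linarith
    have hbX := hb X (Finset.nonempty_iff_ne_empty.mpr hX0) hX1
    have h1 := hsum1 X
    have h2 := hsum2 Xᶜ
    have h3 := hcardsplit X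
    have h4 : ∑ v ∈ X, (deg p q v : ℤ) + ∑ v ∈ Xᶜ, (deg p q v : ℤ) = 2 * Fintype.card E := by
      rw [Finset.sum_add_sum_compl, hdegtot]
    have h5 : ∑ v ∈ X, m v + ∑ v ∈ Xᶜ, m v = Fintype.card E := by
      rw [Finset.sum_add_sum_compl, hmtot]
    have h6 : ((∑ v ∈ X, deg p q v : ℕ) : ℤ) = ∑ v ∈ X, (deg p q v : ℤ) := by push_cast; rfl
    have h7 : ((2 * (inside p q X).card + (cut p q X).card : ℕ) : ℤ) = ∑ v ∈ X, (deg p q v : ℤ) := by
      rw [← hsd, h6]
    have h8 : (((inside p q X).card + (inside p q Xᶜ).card + (cut p q X).card : ℕ) : ℤ) =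
        Fintype.card E := by exact_mod_cast hcs
    push_cast at h7 h8
    have h9 : ((b : ℕ) : ℤ) ≤ ((cut p q X).card : ℤ) := by exact_mod_cast hbX
    have h10 : (((X ∩ O).card + (Xᶜ ∩ O).card : ℕ) : ℤ) = O.card := by exact_mod_cast h3
    push_cast at h10
    have h11 : 2 * ((s0 : ℕ) : ℤ) + 1 ≥ ((O.card / 2 : ℕ) : ℤ) - b := by
      rw [hs0]
      omega
    have h12 : 2 * ((O.card / 2 : ℕ) : ℤ) + 1 ≥ (O.card : ℤ) := by omega
    omega
  -- repair
  obtain ⟨m', hm't, hm'⟩ := repair (fun X => (Fintype.card E : ℤ) - (inside p q Xᶜ).card) (by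
      intro X Y
      have h := inside_super p q Xᶜ Yᶜ
      simp only [Finset.compl_inter, Finset.compl_union]
      linarith) (by
      have : inside p q (∅ : Finset F)ᶜ = Finset.univ := by
        ext e
        rw [mem_inside]
        simp
      simp only [this, Finset.card_univ]
      ring) m s0 (Int.natCast_nonneg _) (by
      have h0 : inside p q (Finset.univ : Finset F)ᶜ = ∅ := by
        ext e
        rw [mem_inside]
        simp
      simp only [h0, hmtot, Finset.card_empty]
      push_cast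
      ring) hviol
  have hf1 : (Fintype.card E : ℤ) - ((inside p q (Finset.univ : Finset F)ᶜ).card : ℤ) =
      Fintype.card E := by
    have h0 : inside p q (Finset.univ : Finset F)ᶜ = ∅ := by
      ext e
      rw [mem_inside]
      simp
    rw [h0, Finset.card_empty]
    push_cast
    ring
  have hm'tot : ∑ v, m' v = Fintype.card E := by
    rw [hm't]
    exact hf1
  have hin : ∀ X : Finset F, ((inside p q X).card : ℤ) ≤ ∑ v ∈ X, m' v := by
    intro X
    have h1 := (hm' Xᶜ).2
    have h4 := Finset.sum_add_sum_compl X m'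
    rw [hm'tot] at h4
    simp only [compl_compl] at h1
    linarith
  have hnn : ∀ v, 0 ≤ m' v := by
    intro v
    have h1 := hin {v}
    rw [Finset.sum_singleton] at h1
    exact (Int.natCast_nonneg _).trans h1
  have hcast : ∀ X : Finset F, ((∑ v ∈ X, (m' v).toNat : ℕ) : ℤ) = ∑ v ∈ X, m' v := by
    intro X
    push_cast
    refine Finset.sum_congr rfl (fun v _ => ?_)
    exact Int.toNat_of_nonneg (hnn v)
  refine ⟨fun v => (m' v).toNat, ?_, ?_, ?_⟩
  · have := hcast Finset.univ
    rw [hm'tot] at this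
    exact_mod_cast this
  · intro X
    have h1 := hin X
    rw [← hcast X] at h1
    exact_mod_cast h1
  · intro X hX
    have h1 := hin X
    have h2 := (hm' X).1
    have h3 := hm1 X hX
    rw [← hcast X] at h1 h2
    have h1' : (inside p q X).card ≤ ∑ v ∈ X, (m' v).toNat := by exact_mod_cast h1
    by_cases hts : s0 ≤ t
    · have : ((t - s0 : ℕ) : ℤ) = (t : ℤ) - s0 := by push_cast [hts]; ring
      have h4 : (((inside p q X).card + (t - s0) : ℕ) : ℤ) ≤ ((∑ v ∈ X, (m' v).toNat : ℕ) : ℤ) := by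
        push_cast [hts]
        push_cast at h2
        linarith
      exact_mod_cast h4
    · have : t - s0 = 0 := by omega
      rw [this, add_zero]
      exact h1'

end H43.OF
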