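import Pool.Agent.H43.OF.Vec

/-!
# A set of vertices meeting all odd cycles
-/

namespace H43.OF

open H37.OS

variable {V F A : Type*}

/-- J and its complement both have at least k arcs on every directed cycle. -/
theorem fas_of_split [Finite V] [DecidableEq V] [Fintype A] [DecidableEq A] [Fintype F]
    [DecidableEq F] (tl hd : A → V) (lf rt : A → F) (hdual : DualPair tl hd lf rt)
    (J : Finset A) (k : ℕ)
    (h : ∀ n c, DiCycle tl hd n c →
      k ≤ (Finset.univ.filter (fun i => c i ∈ J)).card ∧
      k ≤ (Finset.univ.filter (fun i => c i ∉ J)).card) :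
    HasFas tl hd (fun _ => 1) k := by
  classical
  by_cases hF : Nonempty F
  · obtain ⟨r⟩ := hF
    have key : ∀ X : Finset F, X.Nonempty → X ≠ Finset.univ → NoEnter lf rt X →
        k ≤ (leave lf rt J X).card ∧ k ≤ (leave lf rt (Finset.univ \ J) X).card := by
      intro X hX hXu hN
      obtain ⟨n, c, hc, hcut⟩ := exists_dicycle_in_cut tl hd lf rt hdual X hX hXu hN
      have hinj : Function.Injective c := fun i j hij => hc.2 (by simp only [hij])
      obtain ⟨h1, h2⟩ := h n c hc
      constructor
      · refine le_trans h1 (Finset.card_le_card_of_injOn c ?_ (fun i _ j _ hij => hinj hij))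
        intro i hi
        rw [Finset.mem_coe, Finset.mem_filter] at hi
        rw [Finset.mem_coe, mem_leave]
        exact ⟨hi.2, hcut i⟩
      · refine le_trans h2 (Finset.card_le_card_of_injOn c ?_ (fun i _ j _ hij => hinj hij))
        intro i hi
        rw [Finset.mem_coe, Finset.mem_filter] at hi
        rw [Finset.mem_coe, mem_leave]
        exact ⟨Finset.mem_sdiff.2 ⟨Finset.mem_univ _, hi.2⟩, hcut i⟩
    obtain ⟨P, hP1, hP2⟩ := dijoins_of_two lf rt lf rt (fun e => ⟨e, rfl, rfl⟩) r k J
      (Finset.univ \ J) Finset.disjoint_sdiff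
      (fun X hX hr hN => (key X hX (fun hh => hr (hh ▸ Finset.mem_univ r)) hN).1)
      (by
        intro X hX hr hN
        have hne : Xᶜ.Nonempty := ⟨r, by simpa using hr⟩
        have hnu : Xᶜ ≠ Finset.univ := by
          intro hh
          obtain ⟨x, hx⟩ := hX
          have := Finset.eq_univ_iff_forall.1 hh x
          exact (Finset.mem_compl.1 this) hx
        have h1 := (key Xᶜ hne hnu (by
          intro a ha
          rw [Finset.mem_compl] at ha ⊢
          exact fun hh => ha (hN a hh))).2
        refine le_trans h1 (Finset.card_le_card ?_)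
        intro a ha
        rw [mem_leave] at ha ⊢
        simp only [Finset.mem_compl, not_not] at ha
        exact ⟨ha.1, ha.2.2, ha.2.1⟩)
    refine ⟨P, ?_, fun i n c hc => fas_of_dijoin tl hd lf rt hdual (P i) (hP2 i) n c hc.1 hc.2⟩
    intro a
    rw [Finset.card_le_one]
    intro i hi j hj
    rw [Finset.mem_filter] at hi hj
    by_contra hne
    exact Finset.disjoint_left.1 (hP1 i j hne) hi.2 hj.2
  · refine ⟨fun _ => ∅, by simp, ?_⟩
    intro i n c _
    exact absurd ⟨lf (c 0)⟩ hF

/-- D - S is bipartite. -/
theorem fas_of_oct [Finite V] [DecidableEq V] [Fintype A] [DecidableEq A] [Fintype F]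
    [DecidableEq F] (tl hd : A → V) (lf rt : A → F) (hdual : DualPair tl hd lf rt) (g : ℕ)
    (hg : ∀ n c, DiCycle tl hd n c → g ≤ n + 1)
    (S : Finset V) (b : V → Bool)
    (hb : ∀ a, tl a ∉ S → hd a ∉ S → b (tl a) ≠ b (hd a)) :
    HasFas tl hd (fun _ => 1) ((g + 1 - S.card) / 2) := by
  classical
  set J : Finset A := Finset.univ.filter (fun a => (b (tl a) = false ∧ b (hd a) = true) ∨
    (b (tl a) = b (hd a) ∧ tl a ∈ S)) with hJ
  apply fas_of_split tl hd lf rt hdual J
  intro n c hc
  have hlen := hg n c hc
  -- the four classes of arcs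
  let N01 := (Finset.univ.filter (fun i => b (tl (c i)) = false ∧ b (hd (c i)) = true)).card
  let N10 := (Finset.univ.filter (fun i => b (tl (c i)) = true ∧ b (hd (c i)) = false)).card
  let j := (Finset.univ.filter (fun i => b (tl (c i)) = b (hd (c i)) ∧ tl (c i) ∈ S)).card
  let l := (Finset.univ.filter (fun i => b (tl (c i)) = b (hd (c i)) ∧ tl (c i) ∉ S)).card
  have h1 : N01 + N10 + j + l = n + 1 := by
    have h0 : (n + 1) = (Finset.univ : Finset (Fin (n + 1))).card := by simp
    rw [h0]
    simp only [N01, N10, j, l, Finset.card_filter]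
    rw [← Finset.sum_add_distrib, ← Finset.sum_add_distrib, ← Finset.sum_add_distrib,
      Finset.card_eq_sum_ones]
    apply Finset.sum_congr rfl
    intro i _
    cases h2 : b (tl (c i)) <;> cases h3 : b (hd (c i)) <;> by_cases h4 : tl (c i) ∈ S <;>
      simp [h4]
  have h2 : N01 = N10 := by
    have h3 : ∑ i, (if b (hd (c i)) = true then (1 : ℤ) else 0) =
        ∑ i, (if b (tl (c i)) = true then (1 : ℤ) else 0) := by
      rw [← Equiv.sum_comp (Equiv.addRight (1 : Fin (n + 1)))
        (fun i => if b (tl (c i)) = true then (1 : ℤ) else 0)]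
      apply Finset.sum_congr rfl
      intro i _
      rw [hc.1 i]
      rfl
    have h4 : (N01 : ℤ) - N10 = ∑ i, (if b (hd (c i)) = true then (1 : ℤ) else 0) -
        ∑ i, (if b (tl (c i)) = true then (1 : ℤ) else 0) := by
      simp only [N01, N10, Finset.card_filter]
      push_cast
      rw [← Finset.sum_sub_distrib, ← Finset.sum_sub_distrib]
      apply Finset.sum_congr rfl
      intro i _
      cases h2 : b (tl (c i)) <;> cases h3 : b (hd (c i)) <;> simp
    rw [h3] at h4
    omega
  have h3 : j ≤ S.card := by
    apply Finset.card_le_card_of_injOn (fun i => tl (c i))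
    · intro i hi
      rw [Finset.mem_coe, Finset.mem_filter] at hi
      exact hi.2.2
    · intro i _ i' _ hii
      exact hc.2 hii
  have h4 : l ≤ S.card := by
    apply Finset.card_le_card_of_injOn (fun i => hd (c i))
    · intro i hi
      rw [Finset.mem_coe, Finset.mem_filter] at hi
      by_contra hcon
      exact hb (c i) hi.2.2 hcon hi.2.1
    · intro i _ i' _ hii
      simp only at hii
      rw [hc.1 i, hc.1 i'] at hii
      have := hc.2 hii
      simpa using this
  have h5 : (Finset.univ.filter (fun i => c i ∈ J)).card = N01 + j := by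
    simp only [N01, j, Finset.card_filter]
    rw [← Finset.sum_add_distrib]
    apply Finset.sum_congr rfl
    intro i _
    rw [hJ]
    simp only [Finset.mem_filter, Finset.mem_univ, true_and]
    cases h2 : b (tl (c i)) <;> cases h3 : b (hd (c i)) <;> by_cases h4 : tl (c i) ∈ S <;>
      simp [h4]
  have h6 : (Finset.univ.filter (fun i => c i ∉ J)).card = N10 + l := by
    simp only [N10, l, Finset.card_filter]
    rw [← Finset.sum_add_distrib]
    apply Finset.sum_congr rfl
    intro i _
    rw [hJ]
    simp only [Finset.mem_filter, Finset.mem_univ, true_and]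
    cases h2 : b (tl (c i)) <;> cases h3 : b (hd (c i)) <;> by_cases h4 : tl (c i) ∈ S <;>
      simp [h4]
  rw [h5, h6]
  constructor <;> omega

end H43.OF
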