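import Pool.Agent.H43.OF.Cond
import Pool.Agent.H37.OS.OneSource

/-!
# The dual has at most two source components, or at most two sink components
-/

namespace H43.OF

open H37.OS

variable {F E : Type*}

/-- Every vertex is reachable from x or from r. -/
theorem vector_of_two_sources [Fintype F] [DecidableEq F] [Fintype E] (p q : E → F) (r x : F)
    (t : ℕ) (hc : ∀ X : Finset F, Side p q r X → 2 * t ≤ (cut p q X).card)
    (hs : ∀ f, Reach p q x f ∨ Reach p q r f) :
    ∃ m : F → ℕ, GoodVec p q p q r t m := by
  have hback : ∀ X : Finset F, NoEnter p q X → ∀ u v, Reach p q u v → v ∈ X → u ∈ X := by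
    intro X hE u v huv
    induction huv with
    | refl => exact id
    | tail _ hb ih =>
      obtain ⟨e, he1, he2⟩ := hb
      intro hh
      exact ih (he1 ▸ hE e (by rw [he2]; exact hh))
  obtain ⟨m, h1, h2, h3⟩ := vector_one_source p q r x t
    (by
      intro X hX hr hE
      obtain ⟨f, hf⟩ := hX
      rcases hs f with hh | hh
      · exact hback X hE x f hh hf
      · exact absurd (hback X hE r f hh hf) hr)
    (fun X a1 a2 a3 => hc X ⟨a1, a2, a3⟩)
  exact ⟨m, h1, h2, fun X hX => h3 X hX.1 hX.2.1 hX.2.2⟩

/-- Every vertex reaches x or r. -/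
theorem vector_of_two_sinks [Fintype F] [DecidableEq F] [Fintype E] (p q : E → F) (r x : F)
    (t : ℕ) (hc : ∀ X : Finset F, Side p q r X → 2 * t ≤ (cut p q X).card)
    (hs : ∀ f, Reach p q f x ∨ Reach p q f r) :
    ∃ m : F → ℕ, GoodVec p q p q r t m := by
  have hrev : ∀ u v, Reach p q u v → Reach q p v u := by
    intro u v huv
    induction huv with
    | refl => exact Relation.ReflTransGen.refl
    | tail _ hb ih =>
      obtain ⟨e, he1, he2⟩ := hb
      exact Relation.ReflTransGen.head ⟨e, he2, he1⟩ ih
  have hcut : ∀ X : Finset F, cut q p X = cut p q X := by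
    intro X
    ext e
    simp only [cut, Finset.mem_filter, Finset.mem_univ, true_and]
    tauto
  have hin : ∀ X : Finset F, inside q p X = inside p q X := by
    intro X
    ext e
    simp only [inside, Finset.mem_filter, Finset.mem_univ, true_and]
    tauto
  have hside : ∀ X : Finset F, Side q p r X ↔ Side p q r X := by
    intro X
    unfold Side
    have a1 : NoEnter q p X ↔ NoLeave p q X := Iff.rfl
    have a2 : NoLeave q p X ↔ NoEnter p q X := Iff.rfl
    rw [a1, a2, or_comm]
  obtain ⟨m, h1, h2, h3⟩ := vector_of_two_sources q p r x t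
    (fun X hX => by
      rw [hcut]
      exact hc X ((hside X).1 hX))
    (fun f => (hs f).imp (hrev f x) (hrev f r))
  refine ⟨m, h1, fun X => hin X ▸ h2 X, fun X hX => ?_⟩
  have h4 := h3 X ((hside X).2 hX)
  rw [hin] at h4
  exact h4

end H43.OF
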