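import Pool.Agent.H43.OF.Signs
import Pool.Agent.H43.OF.Chain
import Pool.Agent.H43.OF.Many
import Pool.Agent.H43.OF.Oct
import Pool.Agent.H43.OF.Two

/-!
# Disjoint feedback arc sets in plane digraphs: half of the directed girth
-/

namespace H43.OF

open H37.OS

variable {V F A : Type*}

/-- The weight of the boundary of a set of faces. -/
def bdry [DecidableEq F] [Fintype A] (lf rt : A → F) (w : A → ℕ) (X : Finset F) : ℕ :=
  ∑ a ∈ Finset.univ.filter (fun a => ¬ (lf a ∈ X ↔ rt a ∈ X)), w a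

/-- The length of the boundary walk of a face, with weights. -/
def len [DecidableEq F] [Fintype A] (lf rt : A → F) (w : A → ℕ) (f : F) : ℕ :=
  (∑ a ∈ Finset.univ.filter (fun a => lf a = f), w a) +
    ∑ a ∈ Finset.univ.filter (fun a => rt a = f), w a

private theorem cardE [Fintype A] (w : A → ℕ) (P : A → Prop) [DecidablePred P] :
    (Finset.univ.filter (fun e : (Σ a, Fin (w a)) => P e.1)).card =
      ∑ a ∈ Finset.univ.filter P, w a := by
  have h1 : Finset.univ.filter (fun e : (Σ a, Fin (w a)) => P e.1) =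
      (Finset.univ.filter P).sigma (fun a => (Finset.univ : Finset (Fin (w a)))) := by
    ext e
    simp
  rw [h1, Finset.card_sigma]
  simp

/-- The theorem. -/
theorem main [Finite V] [DecidableEq V] [Fintype A] [DecidableEq A] [Fintype F] [DecidableEq F]
    (tl hd : A → V) (lf rt : A → F) (hdual : DualPair tl hd lf rt) (w : A → ℕ) (g b : ℕ)
    (hg : ∀ n c, DiCycle tl hd n c → g ≤ ∑ i, w (c i))
    (hb : ∀ X : Finset F, X.Nonempty → X ≠ Finset.univ → b ≤ bdry lf rt w X) :
    (∀ r : F, {f | Wild lf rt r f ∧ Odd (len lf rt w f)}.ncard ≤ b + 2 →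
      HasFas tl hd w (g / 2)) ∧
    (∀ r : F, (∀ a, 1 ≤ w a) → (∀ a, ∃ n c, DiCycle tl hd n c ∧ ∃ i, c i = a) →
      (∀ e f, Wild lf rt r e → Wild lf rt r f → Odd (len lf rt w e) → Odd (len lf rt w f) →
        Reach lf rt e f ∨ Reach lf rt f e) → HasFas tl hd w (g / 2)) ∧
    HasFas tl hd w (g / 2 - ({f | Odd (len lf rt w f)}.ncard / 2 - b) / 2) ∧
    (∀ r x : F, (∀ a, 1 ≤ w a) → ((∀ f, Reach lf rt x f ∨ Reach lf rt r f) ∨
      (∀ f, Reach lf rt f x ∨ Reach lf rt f r)) → HasFas tl hd w (g / 2)) := by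
  classical
  let p : (Σ a, Fin (w a)) → F := fun e => lf e.1
  let q : (Σ a, Fin (w a)) → F := fun e => rt e.1
  have hE : ∀ e, ∃ a, lf a = p e ∧ rt a = q e := fun e => ⟨e.1, rfl, rfl⟩
  have hcut : ∀ X : Finset F, (cut p q X).card = bdry lf rt w X := fun X =>
    cardE w (fun a => ¬ (lf a ∈ X ↔ rt a ∈ X))
  have hdeg : ∀ f : F, deg p q f = len lf rt w f := by
    intro f
    unfold deg len
    rw [← cardE w (fun a => lf a = f), ← cardE w (fun a => rt a = f)]
  have hc : ∀ r : F, ∀ X : Finset F, Side lf rt r X → 2 * (g / 2) ≤ (cut p q X).card := by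
    intro r X hX
    have h1 : g ≤ (cut p q X).card := side_card tl hd lf rt hdual w g hg r X hX
    omega
  have hb' : ∀ X : Finset F, X.Nonempty → X ≠ Finset.univ → b ≤ (cut p q X).card := by
    intro X h1 h2
    rw [hcut]
    exact hb X h1 h2
  refine ⟨?_, ?_, ?_, ?_⟩
  · intro r hw
    obtain ⟨m, hm⟩ := vector_of_wild_few lf rt p q hE r (g / 2) b (hc r) hb' (by
      have h1 : {v | Wild lf rt r v ∧ Odd (deg p q v)} =
          {f | Wild lf rt r f ∧ Odd (len lf rt w f)} := by
        ext v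
        simp only [Set.mem_ofPred_eq, hdeg]
      rw [h1]
      exact hw)
    exact fas_of_good tl hd lf rt hdual w r (g / 2) m hm
  · intro r hw1 hall hw
    have hA : ∀ a, ∃ e, p e = lf a ∧ q e = rt a := fun a =>
      ⟨⟨a, ⟨0, hw1 a⟩⟩, rfl, rfl⟩
    obtain ⟨m, hm⟩ := vector_of_wild_chain lf rt p q hE hA r (g / 2) (hc r) (by
      intro X h1 h2
      have h3 := dual_conn tl hd lf rt hdual X h1 h2
      obtain ⟨a, ha⟩ := Finset.card_pos.1 h3
      apply Finset.card_pos.2
      refine ⟨⟨a, ⟨0, hw1 a⟩⟩, ?_⟩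
      simpa [cut, p, q] using ha) (dual_acyclic tl hd lf rt hdual hall) (by
      intro u v h1 h2 h3 h4
      rw [hdeg] at h3 h4
      exact hw u v h1 h2 h3 h4)
    exact fas_of_good tl hd lf rt hdual w r (g / 2) m hm
  · by_cases hF : Nonempty F
    · obtain ⟨r⟩ := hF
      obtain ⟨m, hm⟩ := vector_of_many lf rt p q hE r (g / 2) b (hc r) hb'
      have h1 : {f | Odd (len lf rt w f)}.ncard =
          (Finset.univ.filter (fun v => Odd (deg p q v))).card := by
        rw [← Set.ncard_coe_finset]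
        congr 1
        ext v
        simp [hdeg]
      rw [h1]
      exact fas_of_good tl hd lf rt hdual w r _ m hm
    · refine ⟨fun _ => ∅, fun a => absurd ⟨lf a⟩ hF, fun i n c _ => absurd ⟨lf (c 0)⟩ hF⟩
  · intro r x hw1 hs
    have hreach : ∀ u v, Reach lf rt u v → Reach p q u v := by
      intro u v huv
      induction huv with
      | refl => exact Relation.ReflTransGen.refl
      | tail _ hb ih =>
        obtain ⟨a, ha1, ha2⟩ := hb
        exact Relation.ReflTransGen.tail ih ⟨⟨a, ⟨0, hw1 a⟩⟩, ha1, ha2⟩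
    have hside : ∀ X : Finset F, Side p q r X ↔ Side lf rt r X := by
      intro X
      have a1 : NoEnter p q X ↔ NoEnter lf rt X :=
        ⟨fun h a ha => h ⟨a, ⟨0, hw1 a⟩⟩ ha, fun h e he => h e.1 he⟩
      have a2 : NoLeave p q X ↔ NoLeave lf rt X :=
        ⟨fun h a ha => h ⟨a, ⟨0, hw1 a⟩⟩ ha, fun h e he => h e.1 he⟩
      unfold Side
      rw [a1, a2]
    have hm : ∃ m : F → ℕ, GoodVec p q p q r (g / 2) m := by
      rcases hs with hs | hs
      · exact vector_of_two_sources p q r x (g / 2)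
          (fun X hX => hc r X ((hside X).1 hX))
          (fun f => (hs f).imp (hreach x f) (hreach r f))
      · exact vector_of_two_sinks p q r x (g / 2)
          (fun X hX => hc r X ((hside X).1 hX))
          (fun f => (hs f).imp (hreach f x) (hreach f r))
    obtain ⟨m, h1, h2, h3⟩ := hm
    exact fas_of_good tl hd lf rt hdual w r (g / 2) m
      ⟨h1, h2, fun X hX => h3 X ((hside X).2 hX)⟩

end H43.OF
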