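import Mathlib

/-!
# Discrete sandwich theorem (Frank) and repair of a vector

p supermodular, f submodular, integer valued, p ≤ f: an integer vector m lies in between.
-/

namespace H43.OF

variable {V : Type*} [DecidableEq V]

/-- the induction: everything is only assumed for subsets of S -/
theorem sandwich_aux (S : Finset V) : ∀ (p f : Finset V → ℤ)
    (_ : ∀ X Y, X ⊆ S → Y ⊆ S → p X + p Y ≤ p (X ∩ Y) + p (X ∪ Y))
    (_ : ∀ X Y, X ⊆ S → Y ⊆ S → f (X ∩ Y) + f (X ∪ Y) ≤ f X + f Y)
    (_ : ∀ X, X ⊆ S → p X ≤ f X) (_ : p ∅ = 0) (_ : f ∅ = 0),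
    ∃ m : V → ℤ, ∀ X, X ⊆ S → p X ≤ ∑ v ∈ X, m v ∧ ∑ v ∈ X, m v ≤ f X := by
  induction S using Finset.induction_on with
  | empty =>
    intro p f _ _ _ hp0 hf0
    refine ⟨fun _ => 0, fun X hX => ?_⟩
    have hX0 : X = ∅ := Finset.subset_empty.mp hX
    subst hX0
    simp [hp0, hf0]
  | insert v S hv ih =>
    intro p f hp hf h hp0 hf0
    -- choice of the value at v
    have hne : (S.powerset).Nonempty := ⟨∅, Finset.empty_mem_powerset S⟩
    obtain ⟨X0, hX0, hmax⟩ := Finset.exists_max_image S.powerset
      (fun X => p (insert v X) - f X) hne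
    set a : ℤ := p (insert v X0) - f X0 with ha
    have hX0S : X0 ⊆ S := Finset.mem_powerset.mp hX0
    have ha1 : ∀ X, X ⊆ S → p (insert v X) - f X ≤ a := fun X hX =>
      hmax X (Finset.mem_powerset.mpr hX)
    have hsub : ∀ X, X ⊆ S → X ⊆ insert v S := fun X hX =>
      hX.trans (Finset.subset_insert v S)
    have hins : ∀ X, X ⊆ S → insert v X ⊆ insert v S := fun X hX =>
      Finset.insert_subset_insert v hX
    have hnot : ∀ X, X ⊆ S → v ∉ X := fun X hX hvX => hv (hX hvX)
    have ha2 : ∀ Y, Y ⊆ S → a ≤ f (insert v Y) - p Y := by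
      intro Y hY
      have h1 := hp (insert v X0) Y (hins X0 hX0S) (hsub Y hY)
      have h2 := hf X0 (insert v Y) (hsub X0 hX0S) (hins Y hY)
      have e1 : insert v X0 ∩ Y = X0 ∩ Y := by
        rw [Finset.insert_inter_of_notMem (hnot Y hY)]
      have e2 : insert v X0 ∪ Y = insert v (X0 ∪ Y) := Finset.insert_union _ _ _
      have e3 : X0 ∩ insert v Y = X0 ∩ Y := by
        rw [Finset.inter_insert_of_notMem (hnot X0 hX0S)]
      have e4 : X0 ∪ insert v Y = insert v (X0 ∪ Y) := Finset.union_insert _ _ _
      rw [e1, e2] at h1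
      rw [e3, e4] at h2
      have h3 := h (X0 ∩ Y) (hsub _ (Finset.inter_subset_left.trans hX0S))
      have h4 := h (insert v (X0 ∪ Y)) (hins _ (Finset.union_subset hX0S hY))
      linarith
    obtain ⟨m, hm⟩ := ih (fun X => max (p X) (p (insert v X) - a))
      (fun X => min (f X) (f (insert v X) - a)) (by
        intro X Y hX hY
        have hI : X ∩ Y ⊆ S := Finset.inter_subset_left.trans hX
        have hU : X ∪ Y ⊆ S := Finset.union_subset hX hY
        have h1 := hp X Y (hsub X hX) (hsub Y hY)
        have h2 := hp (insert v X) Y (hins X hX) (hsub Y hY)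
        have h3 := hp X (insert v Y) (hsub X hX) (hins Y hY)
        have h4 := hp (insert v X) (insert v Y) (hins X hX) (hins Y hY)
        rw [Finset.insert_inter_of_notMem (hnot Y hY), Finset.insert_union] at h2
        rw [Finset.inter_insert_of_notMem (hnot X hX), Finset.union_insert] at h3
        rw [← Finset.insert_inter_distrib, ← Finset.insert_union_distrib] at h4
        have b1 := le_max_left (p (X ∩ Y)) (p (insert v (X ∩ Y)) - a)
        have b2 := le_max_right (p (X ∩ Y)) (p (insert v (X ∩ Y)) - a)
        have b3 := le_max_left (p (X ∪ Y)) (p (insert v (X ∪ Y)) - a)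
        have b4 := le_max_right (p (X ∪ Y)) (p (insert v (X ∪ Y)) - a)
        rcases max_choice (p X) (p (insert v X) - a) with c1 | c1 <;>
        rcases max_choice (p Y) (p (insert v Y) - a) with c2 | c2 <;>
        simp only [c1, c2] <;> linarith) (by
        intro X Y hX hY
        have hI : X ∩ Y ⊆ S := Finset.inter_subset_left.trans hX
        have hU : X ∪ Y ⊆ S := Finset.union_subset hX hY
        have h1 := hf X Y (hsub X hX) (hsub Y hY)
        have h2 := hf (insert v X) Y (hins X hX) (hsub Y hY)
        have h3 := hf X (insert v Y) (hsub X hX) (hins Y hY)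
        have h4 := hf (insert v X) (insert v Y) (hins X hX) (hins Y hY)
        rw [Finset.insert_inter_of_notMem (hnot Y hY), Finset.insert_union] at h2
        rw [Finset.inter_insert_of_notMem (hnot X hX), Finset.union_insert] at h3
        rw [← Finset.insert_inter_distrib, ← Finset.insert_union_distrib] at h4
        have b1 := min_le_left (f (X ∩ Y)) (f (insert v (X ∩ Y)) - a)
        have b2 := min_le_right (f (X ∩ Y)) (f (insert v (X ∩ Y)) - a)
        have b3 := min_le_left (f (X ∪ Y)) (f (insert v (X ∪ Y)) - a)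
        have b4 := min_le_right (f (X ∪ Y)) (f (insert v (X ∪ Y)) - a)
        rcases min_choice (f X) (f (insert v X) - a) with c1 | c1 <;>
        rcases min_choice (f Y) (f (insert v Y) - a) with c2 | c2 <;>
        simp only [c1, c2] <;> linarith) (by
        intro X hX
        have h1 := h X (hsub X hX)
        have h2 := h (insert v X) (hins X hX)
        have h3 := ha1 X hX
        have h4 := ha2 X hX
        refine max_le (le_min ?_ ?_) (le_min ?_ ?_) <;> linarith) (by
        have h3 := ha1 ∅ (Finset.empty_subset S)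
        rw [hf0] at h3
        show max (p ∅) (p (insert v ∅) - a) = 0
        rw [hp0]
        exact max_eq_left (by linarith)) (by
        have h4 := ha2 ∅ (Finset.empty_subset S)
        rw [hp0] at h4
        show min (f ∅) (f (insert v ∅) - a) = 0
        rw [hf0]
        exact min_eq_left (by linarith))
    refine ⟨fun w => if w = v then a else m w, fun X hX => ?_⟩
    by_cases hvX : v ∈ X
    · have hE : X.erase v ⊆ S := by
        intro w hw
        rw [Finset.mem_erase] at hw
        exact (Finset.mem_insert.mp (hX hw.2)).resolve_left hw.1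
      have hs : ∑ w ∈ X, (if w = v then a else m w) = a + ∑ w ∈ X.erase v, m w := by
        rw [← Finset.add_sum_erase X _ hvX, if_pos rfl]
        congr 1
        refine Finset.sum_congr rfl (fun w hw => ?_)
        rw [if_neg (Finset.mem_erase.mp hw).1]
      obtain ⟨g1, g2⟩ := hm (X.erase v) hE
      have g1' := (le_max_right _ _).trans g1
      have g2' := g2.trans (min_le_right _ _)
      simp only [Finset.insert_erase hvX] at g1' g2'
      rw [hs]
      constructor <;> linarith
    · have hE : X ⊆ S := by
        intro w hw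
        rcases Finset.mem_insert.mp (hX hw) with rfl | h'
        · exact absurd hw hvX
        · exact h'
      have hs : ∑ w ∈ X, (if w = v then a else m w) = ∑ w ∈ X, m w := by
        refine Finset.sum_congr rfl (fun w hw => ?_)
        rw [if_neg]
        rintro rfl
        exact hvX hw
      obtain ⟨g1, g2⟩ := hm X hE
      rw [hs]
      exact ⟨(le_max_left _ _).trans g1, g2.trans (min_le_left _ _)⟩

/-- Frank's discrete sandwich theorem. -/
theorem sandwich [Finite V] (p f : Finset V → ℤ)
    (hp : ∀ X Y, p X + p Y ≤ p (X ∩ Y) + p (X ∪ Y))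
    (hf : ∀ X Y, f (X ∩ Y) + f (X ∪ Y) ≤ f X + f Y)
    (h : ∀ X, p X ≤ f X) (hp0 : p ∅ = 0) (hf0 : f ∅ = 0) :
    ∃ m : V → ℤ, ∀ X, p X ≤ ∑ v ∈ X, m v ∧ ∑ v ∈ X, m v ≤ f X := by
  haveI := Fintype.ofFinite V
  obtain ⟨m, hm⟩ := sandwich_aux (Finset.univ : Finset V) p f
    (fun X Y _ _ => hp X Y) (fun X Y _ _ => hf X Y) (fun X _ => h X) hp0 hf0
  exact ⟨m, fun X => hm X (Finset.subset_univ X)⟩

/-- A vector which violates the upper bound f by at most s can be repaired at the cost s. -/
theorem repair [Fintype V] (f : Finset V → ℤ)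
    (hf : ∀ X Y, f (X ∩ Y) + f (X ∪ Y) ≤ f X + f Y) (hf0 : f ∅ = 0)
    (m : V → ℤ) (s : ℤ) (hs : 0 ≤ s) (htot : ∑ v, m v = f Finset.univ)
    (h : ∀ X, ∑ v ∈ X, m v ≤ f X + s) :
    ∃ m' : V → ℤ, ∑ v, m' v = f Finset.univ ∧
      ∀ X, ∑ v ∈ X, m v - s ≤ ∑ v ∈ X, m' v ∧ ∑ v ∈ X, m' v ≤ f X := by
  set L : Finset V → ℤ := fun X => ∑ v ∈ X, m v -
    (if X = ∅ ∨ X = Finset.univ then 0 else s) with hL
  have hge : ∀ X, ∑ v ∈ X, m v - s ≤ L X := by
    intro X
    simp only [hL]
    split_ifs <;> linarith
  have hmod : ∀ X Y : Finset V, ∑ v ∈ X, m v + ∑ v ∈ Y, m v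
      = ∑ v ∈ X ∩ Y, m v + ∑ v ∈ X ∪ Y, m v := by
    intro X Y
    have := Finset.sum_union_inter (s₁ := X) (s₂ := Y) (f := m)
    linarith
  obtain ⟨m', hm'⟩ := sandwich L f (by
      intro X Y
      by_cases hX : X = ∅
      · subst hX
        simp
      by_cases hX1 : X = Finset.univ
      · subst hX1
        rw [Finset.univ_inter, Finset.union_eq_left.mpr (Finset.subset_univ Y)]
        linarith
      by_cases hY : Y = ∅
      · subst hY
        simp [add_comm]
      by_cases hY1 : Y = Finset.univ
      · subst hY1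
        rw [Finset.inter_univ, Finset.union_eq_right.mpr (Finset.subset_univ X)]
      have h1 := hge (X ∩ Y)
      have h2 := hge (X ∪ Y)
      have h3 : L X = ∑ v ∈ X, m v - s := by
        simp only [hL]
        rw [if_neg (by rintro (h' | h') <;> contradiction)]
      have h4 : L Y = ∑ v ∈ Y, m v - s := by
        simp only [hL]
        rw [if_neg (by rintro (h' | h') <;> contradiction)]
      have h5 := hmod X Y
      linarith) hf (by
      intro X
      by_cases hX : X = ∅
      · subst hX
        simp [hL, hf0]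
      by_cases hX1 : X = Finset.univ
      · subst hX1
        simp [hL, htot]
      have h3 : L X = ∑ v ∈ X, m v - s := by
        simp only [hL]
        rw [if_neg (by rintro (h' | h') <;> contradiction)]
      have := h X
      linarith) (by simp [hL]) hf0
  refine ⟨m', ?_, fun X => ⟨(hge X).trans (hm' X).1, (hm' X).2⟩⟩
  obtain ⟨g1, g2⟩ := hm' Finset.univ
  have h1 : L Finset.univ = f Finset.univ := by
    simp [hL, htot]
  linarith

end H43.OF
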