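import Pool.Agent.H43.OF.Cond

/-!
# Choice of the signs: few odd wild vertices
-/

namespace H43.OF

open H37.OS

variable {F A E : Type*}

/-- A vertex of a set closed under predecessors, without r, is not reachable from r. -/
theorem not_reach_of_noEnter [DecidableEq F] {lf rt : A → F} {r v : F} {X : Finset F}
    (hX : NoEnter lf rt X) (hr : r ∉ X) (hv : v ∈ X) : ¬ Reach lf rt r v := by
  intro h
  apply hr
  have key : ∀ u, Reach lf rt u v → u ∈ X := by
    intro u hu
    induction hu using Relation.ReflTransGen.head_induction_on with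
    | refl => exact hv
    | head hab _ ih =>
      obtain ⟨a, ha1, ha2⟩ := hab
      rw [← ha1]
      exact hX a (ha2 ▸ ih)
  exact key r h

/-- A vertex of a set closed under successors, without r, does not reach r. -/
theorem not_reach_of_noLeave [DecidableEq F] {lf rt : A → F} {r v : F} {Y : Finset F}
    (hY : NoLeave lf rt Y) (hr : r ∉ Y) (hv : v ∈ Y) : ¬ Reach lf rt v r := by
  intro h
  apply hr
  have key : ∀ u, Reach lf rt v u → u ∈ Y := by
    intro u hu
    induction hu with
    | refl => exact hv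
    | tail _ hab ih =>
      obtain ⟨a, ha1, ha2⟩ := hab
      rw [← ha2]
      exact hY a (ha1 ▸ ih)
  exact key r h

theorem wild_of_mem [DecidableEq F] {lf rt : A → F} {r v : F} {X Y : Finset F}
    (hX : NoEnter lf rt X) (hY : NoLeave lf rt Y) (hrX : r ∉ X) (hrY : r ∉ Y)
    (hv : v ∈ X ∩ Y) : Wild lf rt r v :=
  ⟨not_reach_of_noLeave hY hrY (Finset.mem_inter.1 hv).2,
    not_reach_of_noEnter hX hrX (Finset.mem_inter.1 hv).1⟩

/-- The cut splits into leaving and entering edges. -/
theorem cut_eq [DecidableEq F] [Fintype E] (p q : E → F) (X : Finset F) :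
    (cut p q X).card = (Finset.univ.filter (fun e => p e ∈ X ∧ q e ∉ X)).card +
      (Finset.univ.filter (fun e => p e ∉ X ∧ q e ∈ X)).card := by
  classical
  rw [← Finset.card_union_of_disjoint]
  · congr 1
    ext e
    simp only [cut, Finset.mem_filter, Finset.mem_univ, true_and, Finset.mem_union]
    tauto
  · rw [Finset.disjoint_left]
    intro e h1 h2
    simp only [Finset.mem_filter, Finset.mem_univ, true_and] at h1 h2
    exact h1.2 h2.2

/-- Parity of net. -/
theorem net_parity [DecidableEq F] [Fintype E] (p q : E → F) (X : Finset F) :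
    (2 : ℤ) ∣ net p q X + ∑ v ∈ X, (deg p q v : ℤ) := by
  have h1 := cut_eq p q X
  have h2 := sum_deg p q X
  have h3 : ∑ v ∈ X, (deg p q v : ℤ) = ((∑ v ∈ X, deg p q v : ℕ) : ℤ) := by push_cast; rfl
  rw [h3, h2, h1]
  unfold net
  refine ⟨(inside p q X).card + (Finset.univ.filter (fun e => p e ∈ X ∧ q e ∉ X)).card, ?_⟩
  push_cast
  ring

/-- The parity condition for a family and a set Z. -/
theorem fam_parity [DecidableEq F] [Fintype E] (p q : E → F) (t : ℕ) (c : F → ℤ)
    (C : Finset (Finset F)) (Z : Finset F)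
    (hC : (C : Set (Finset F)).PairwiseDisjoint id) (hZ : Disjoint (C.biUnion id) Z)
    (hpar : ∀ v ∈ Z, (2 : ℤ) ∣ (deg p q v : ℤ) + c v) :
    (2 : ℤ) ∣ ((cut p q (C.biUnion id ∪ Z)).card +
        ∑ X ∈ C, (((cut p q X).card : ℤ) - 2 * t)) - ∑ v ∈ Z, c v := by
  have h1 := sum_deg p q (C.biUnion id ∪ Z)
  rw [Finset.sum_union hZ, Finset.sum_biUnion hC] at h1
  have h2 : ∀ X ∈ C, ∑ v ∈ id X, deg p q v = 2 * (inside p q X).card + (cut p q X).card :=
    fun X _ => sum_deg p q X
  rw [Finset.sum_congr rfl h2, Finset.sum_add_distrib, ← Finset.mul_sum] at h1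
  have h3 : (2 : ℤ) ∣ ∑ v ∈ Z, ((deg p q v : ℤ) + c v) := Finset.dvd_sum hpar
  rw [Finset.sum_add_distrib] at h3
  obtain ⟨k, hk⟩ := h3
  have h4 : ((∑ v ∈ Z, deg p q v : ℕ) : ℤ) = ∑ v ∈ Z, (deg p q v : ℤ) := by push_cast; rfl
  have h5 : ((∑ X ∈ C, (cut p q X).card : ℕ) : ℤ) = ∑ X ∈ C, ((cut p q X).card : ℤ) := by
    push_cast; rfl
  rw [Finset.sum_sub_distrib, ← h5]
  have h6 : ∑ _x ∈ C, (2 * (t : ℤ)) = 2 * (C.card * t : ℤ) := by
    rw [Finset.sum_const, nsmul_eq_mul]; ring
  rw [h6]
  have h7 : ((2 * ∑ X ∈ C, (inside p q X).card + ∑ X ∈ C, (cut p q X).card +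
      ∑ v ∈ Z, deg p q v : ℕ) : ℤ) = ((2 * (inside p q (C.biUnion id ∪ Z)).card +
      (cut p q (C.biUnion id ∪ Z)).card : ℕ) : ℤ) := by rw [h1]
  push_cast at h7 h4 h5 ⊢
  omega

/-- At most b + 2 odd wild vertices, all cuts have at least b edges. -/
theorem vector_of_wild_few [Fintype F] [DecidableEq F] [Fintype E] (lf rt : A → F) (p q : E → F)
    (hE : ∀ e, ∃ a, lf a = p e ∧ rt a = q e) (r : F) (t b : ℕ)
    (hc : ∀ X : Finset F, Side lf rt r X → 2 * t ≤ (cut p q X).card)
    (hb : ∀ X : Finset F, X.Nonempty → X ≠ Finset.univ → b ≤ (cut p q X).card)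
    (hw : {v | Wild lf rt r v ∧ Odd (deg p q v)}.ncard ≤ b + 2) :
    ∃ m : F → ℕ, GoodVec lf rt p q r t m := by
  classical
  set W0 : Finset F := Finset.univ.filter (fun v => Wild lf rt r v ∧ Odd (deg p q v)) with hW0
  have hcard : W0.card ≤ b + 2 := by
    refine le_trans (le_of_eq ?_) hw
    rw [← Set.ncard_coe_finset]
    congr 1
    ext v
    simp [hW0]
  obtain ⟨v0, hv0⟩ : ∃ v0 : F, W0.Nonempty → v0 ∈ W0 := by
    by_cases h : W0.Nonempty
    · exact ⟨h.choose, fun _ => h.choose_spec⟩
    · exact ⟨r, fun hh => absurd hh h⟩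
  let c : F → ℤ := fun v => if v ∈ W0 then (if v = v0 then -1 else 1) else 0
  have hcv : ∀ v, -1 ≤ c v ∧ c v ≤ 1 := by
    intro v
    simp only [c]
    split_ifs <;> constructor <;> norm_num
  have hcpar : ∀ v, Wild lf rt r v → (2 : ℤ) ∣ (deg p q v : ℤ) + c v := by
    intro v hv
    simp only [c]
    by_cases h1 : v ∈ W0
    · have h2 : Odd (deg p q v) := by
        rw [hW0, Finset.mem_filter] at h1
        exact h1.2.2
      obtain ⟨k, hk⟩ := h2
      rw [if_pos h1, hk]
      split_ifs
      · exact ⟨k, by push_cast; ring⟩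
      · exact ⟨k + 1, by push_cast; ring⟩
    · have h2 : ¬ Odd (deg p q v) := by
        intro h3
        apply h1
        rw [hW0, Finset.mem_filter]
        exact ⟨Finset.mem_univ _, hv, h3⟩
      rw [Nat.not_odd_iff_even] at h2
      obtain ⟨k, hk⟩ := h2
      rw [if_neg h1, hk]
      exact ⟨k, by push_cast; ring⟩
  have hlow : ∀ Z : Finset F, -1 ≤ ∑ v ∈ Z, c v := by
    intro Z
    by_cases h : v0 ∈ Z
    · rw [← Finset.add_sum_erase Z c h]
      have h1 : 0 ≤ ∑ v ∈ Z.erase v0, c v := by
        apply Finset.sum_nonneg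
        intro v hv
        have h2 : v ≠ v0 := (Finset.mem_erase.1 hv).1
        simp only [c]
        split_ifs <;> simp_all
      have := (hcv v0).1
      omega
    · have h1 : 0 ≤ ∑ v ∈ Z, c v := by
        apply Finset.sum_nonneg
        intro v hv
        have h2 : v ≠ v0 := fun hh => h (hh ▸ hv)
        simp only [c]
        split_ifs <;> simp_all
      omega
  have hup : ∀ Z : Finset F, ∑ v ∈ Z, c v ≤ b + 1 := by
    intro Z
    have h1 : ∑ v ∈ Z, c v ≤ ∑ v ∈ Z, (if v ∈ W0.erase v0 then (1 : ℤ) else 0) := by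
      apply Finset.sum_le_sum
      intro v _
      simp only [c, Finset.mem_erase]
      split_ifs <;> simp_all
    have h2 : ∑ v ∈ Z, (if v ∈ W0.erase v0 then (1 : ℤ) else 0) ≤ ((W0.erase v0).card : ℤ) := by
      rw [← Finset.sum_filter, Finset.sum_const, nsmul_eq_mul, mul_one]
      have : (Z.filter (fun v => v ∈ W0.erase v0)).card ≤ (W0.erase v0).card := by
        apply Finset.card_le_card
        intro v hv
        exact (Finset.mem_filter.1 hv).2
      exact_mod_cast this
    have h3 : (W0.erase v0).card ≤ b + 1 := by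
      by_cases h : W0.Nonempty
      · rw [Finset.card_erase_of_mem (hv0 h)]
        omega
      · rw [Finset.not_nonempty_iff_eq_empty] at h
        rw [h]
        simp
    have h4 : ((W0.erase v0).card : ℤ) ≤ b + 1 := by exact_mod_cast h3
    omega
  apply vector_of_signs lf rt p q hE r t c hc hcpar
  · intro X Y hX hY hrX hrY _ _ _
    have h1 := hlow (X ∩ Y)
    by_cases h2 : 0 ≤ ∑ v ∈ X ∩ Y, c v
    · exact le_trans (neg_nonpos.2 (abs_nonneg _)) h2
    · have h3 : ∑ v ∈ X ∩ Y, c v = -1 := by omega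
      have h4 : (2 : ℤ) ∣ ∑ v ∈ X ∩ Y, ((deg p q v : ℤ) + c v) := by
        apply Finset.dvd_sum
        intro v hv
        exact hcpar v (wild_of_mem hX hY hrX hrY hv)
      rw [Finset.sum_add_distrib, h3] at h4
      have h5 := net_parity p q (X ∩ Y)
      have h6 : net p q (X ∩ Y) ≠ 0 := by
        intro h7
        rw [h7] at h5
        omega
      have h8 : 1 ≤ |net p q (X ∩ Y)| := Int.one_le_abs h6
      omega
  · intro C Z hC hdis hZ hwild
    have hterm : 0 ≤ ∑ X ∈ C, (((cut p q X).card : ℤ) - 2 * t) := by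
      apply Finset.sum_nonneg
      intro X hX
      have := hc X (hC X hX)
      have h2 : ((2 * t : ℕ) : ℤ) ≤ ((cut p q X).card : ℤ) := by exact_mod_cast this
      push_cast at h2
      omega
    have hpar := fam_parity p q t c C Z hdis hZ (fun v hv => hcpar v (hwild v hv))
    have h1 := hup Z
    by_cases hne : Z.Nonempty
    · have h2 : b ≤ (cut p q (C.biUnion id ∪ Z)).card := by
        apply hb
        · exact hne.mono Finset.subset_union_right
        · intro h3
          have h4 : r ∈ C.biUnion id ∪ Z := h3 ▸ Finset.mem_univ r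
          rw [Finset.mem_union, Finset.mem_biUnion] at h4
          rcases h4 with ⟨X, hX, hrX⟩ | h4
          · exact (hC X hX).2.1 hrX
          · exact (hwild r h4).1 Relation.ReflTransGen.refl
      have h3 : (b : ℤ) ≤ ((cut p q (C.biUnion id ∪ Z)).card : ℤ) := by exact_mod_cast h2
      omega
    · rw [Finset.not_nonempty_iff_eq_empty] at hne
      subst hne
      rw [Finset.sum_empty]
      positivity
end H43.OF
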