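import Pool.Agent.H43.OF.Sand

/-!
# Mixed system of two intersecting families: the upper truncation is supermodular

F1, F2 families of nonempty sets, p a lower bound on them, l a lower bound for single elements.
-/

namespace H43.OF

variable {V : Type*} [DecidableEq V]

/-- Two intersecting supermodular families which uncross each other by differences. -/
structure Sys (F1 F2 : Finset V → Prop) (p : Finset V → ℤ) (l : V → ℤ) : Prop where
  ne1 : ∀ X, F1 X → X.Nonempty
  ne2 : ∀ X, F2 X → X.Nonempty
  one : ∀ X Y, F1 X → F1 Y → (X ∩ Y).Nonempty →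
    F1 (X ∩ Y) ∧ F1 (X ∪ Y) ∧ p X + p Y ≤ p (X ∩ Y) + p (X ∪ Y)
  two : ∀ X Y, F2 X → F2 Y → (X ∩ Y).Nonempty →
    F2 (X ∩ Y) ∧ F2 (X ∪ Y) ∧ p X + p Y ≤ p (X ∩ Y) + p (X ∪ Y)
  mix : ∀ X Y, F1 X → F2 Y → (X ∩ Y).Nonempty → (X \ Y).Nonempty → (Y \ X).Nonempty →
    F1 (X \ Y) ∧ F2 (Y \ X) ∧
      (p X ≤ p (X \ Y) + ∑ v ∈ X ∩ Y, l v ∨ p Y ≤ p (Y \ X) + ∑ v ∈ X ∩ Y, l v)

/-- C is a family of pairwise disjoint members of F1 and F2 inside W. -/
def Fam (F1 F2 : Finset V → Prop) (W : Finset V) (C : Finset (Finset V)) : Prop :=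
  (∀ X ∈ C, F1 X ∨ F2 X) ∧ (∀ X ∈ C, X ⊆ W) ∧ (C : Set (Finset V)).PairwiseDisjoint id

/-- The value of a family. -/
def val (p : Finset V → ℤ) (l : V → ℤ) (W : Finset V) (C : Finset (Finset V)) : ℤ :=
  ∑ X ∈ C, p X + ∑ v ∈ W \ C.biUnion id, l v

theorem Sys.swap {F1 F2 : Finset V → Prop} {p : Finset V → ℤ} {l : V → ℤ}
    (S : Sys F1 F2 p l) : Sys F2 F1 p l := by
  refine ⟨S.ne2, S.ne1, S.two, S.one, ?_⟩
  intro X Y hX hY h1 h2 h3
  rw [Finset.inter_comm] at h1
  obtain ⟨g1, g2, g3⟩ := S.mix Y X hY hX h1 h3 h2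
  refine ⟨g2, g1, ?_⟩
  rw [Finset.inter_comm X Y]
  exact g3.symm

theorem Fam.swap {F1 F2 : Finset V → Prop} {W : Finset V} {C : Finset (Finset V)}
    (h : Fam F1 F2 W C) : Fam F2 F1 W C :=
  ⟨fun X hX => (h.1 X hX).symm, h.2.1, h.2.2⟩

/-- removing a member -/
theorem Fam.erase {F1 F2 : Finset V → Prop} {A : Finset V} {C : Finset (Finset V)}
    (h : Fam F1 F2 A C) {Z : Finset V} (hZ : Z ∈ C) : Fam F1 F2 (A \ Z) (C.erase Z) := by
  refine ⟨fun X hX => h.1 X (Finset.mem_of_mem_erase hX), fun X hX => ?_, ?_⟩
  · have hXC := Finset.mem_of_mem_erase hX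
    have hne := Finset.ne_of_mem_erase hX
    have hd : Disjoint X Z := h.2.2 hXC hZ hne
    intro v hv
    rw [Finset.mem_sdiff]
    exact ⟨h.2.1 X hXC hv, fun hvZ => Finset.disjoint_left.mp hd hv hvZ⟩
  · intro X hX Y hY hXY
    exact h.2.2 (Finset.mem_of_mem_erase hX) (Finset.mem_of_mem_erase hY) hXY

theorem val_erase {F1 F2 : Finset V → Prop} {p : Finset V → ℤ} {l : V → ℤ} {A : Finset V}
    {C : Finset (Finset V)} {Z : Finset V} (_h : Fam F1 F2 A C) (hZ : Z ∈ C) :
    val p l A C = val p l (A \ Z) (C.erase Z) + p Z := by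
  unfold val
  have h1 : ∑ X ∈ C, p X = p Z + ∑ X ∈ C.erase Z, p X := (Finset.add_sum_erase C p hZ).symm
  have h2 : A \ C.biUnion id = (A \ Z) \ (C.erase Z).biUnion id := by
    ext v
    simp only [Finset.mem_sdiff, Finset.mem_biUnion, id, Finset.mem_erase, not_exists, not_and]
    constructor
    · rintro ⟨h1, h2⟩
      exact ⟨⟨h1, fun hv => h2 Z hZ hv⟩, fun X hX => h2 X hX.2⟩
    · rintro ⟨⟨h1, h2⟩, h3⟩
      refine ⟨h1, fun X hX hv => ?_⟩
      by_cases hXZ : X = Z
      · subst hXZ
        exact h2 hv
      · exact h3 X ⟨hXZ, hX⟩ hv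
  rw [h1, h2]
  ring

/-- The key step: a member Y of F2 can be added to a set. -/
theorem ssl {F1 F2 : Finset V → Prop} {p : Finset V → ℤ} {l : V → ℤ} (S : Sys F1 F2 p l)
    (P : Finset V → ℤ) (hsup : ∀ X Y, Disjoint X Y → P X + P Y ≤ P (X ∪ Y))
    (hval : ∀ W C, Fam F1 F2 W C → val p l W C ≤ P W) :
    ∀ (n k : ℕ) (A : Finset V) (C : Finset (Finset V)) (Y : Finset V), C.card = n →
      Y.card + ∑ Z ∈ C, Z.card = k → Fam F1 F2 A C → F2 Y →
      val p l A C + p Y ≤ P (A ∪ Y) + P (A ∩ Y) := by
  have hPY : ∀ Y, F1 Y ∨ F2 Y → p Y ≤ P Y := by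
    intro Y hY
    have h1 := hval Y {Y} ⟨fun X hX => by rw [Finset.mem_singleton.mp hX]; exact hY,
      fun X hX => by rw [Finset.mem_singleton.mp hX], by
        rw [Finset.coe_singleton]; exact Set.pairwiseDisjoint_singleton _ _⟩
    unfold val at h1
    rw [Finset.sum_singleton, Finset.singleton_biUnion, id, Finset.sdiff_self,
      Finset.sum_empty, add_zero] at h1
    exact h1
  have hPl : ∀ W, ∑ v ∈ W, l v ≤ P W := by
    intro W
    have h1 := hval W ∅ ⟨fun X hX => absurd hX (Finset.notMem_empty X),
      fun X hX => absurd hX (Finset.notMem_empty X), by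
        rw [Finset.coe_empty]; exact Set.pairwiseDisjoint_empty⟩
    unfold val at h1
    rw [Finset.sum_empty, Finset.biUnion_empty, Finset.sdiff_empty, zero_add] at h1
    exact h1
  intro n
  induction n using Nat.strong_induction_on with
  | _ n ihn =>
  intro k
  induction k using Nat.strong_induction_on with
  | _ k ihk =>
  intro A C Y hn hk hC hY
  by_cases hmeet : ∃ Z ∈ C, (Z ∩ Y).Nonempty
  · obtain ⟨Z, hZ, hZY⟩ := hmeet
    have hZA := hC.2.1 Z hZ
    by_cases hsub : Y ⊆ Z
    · -- Y inside a member
      have e1 : A ∪ Y = A := Finset.union_eq_left.mpr (hsub.trans hZA)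
      have e2 : A ∩ Y = Y := Finset.inter_eq_right.mpr (hsub.trans hZA)
      rw [e1, e2]
      exact add_le_add (hval A C hC) (hPY Y (Or.inr hY))
    have hYZ : (Y \ Z).Nonempty := Finset.sdiff_nonempty.mpr hsub
    have herase : Fam F1 F2 (A \ Z) (C.erase Z) := hC.erase hZ
    have hve := val_erase (p := p) (l := l) hC hZ
    have hcard : (C.erase Z).card < n := by
      rw [Finset.card_erase_of_mem hZ, hn]
      have : 0 < C.card := Finset.card_pos.mpr ⟨Z, hZ⟩
      omega
    by_cases hF2 : F2 Z
    · -- same type: merge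
      obtain ⟨g1, g2, g3⟩ := S.two Z Y hF2 hY hZY
      have ih := ihn _ hcard _ (A \ Z) (C.erase Z) (Z ∪ Y) rfl rfl herase g2
      have e1 : A \ Z ∪ (Z ∪ Y) = A ∪ Y := by
        ext v
        simp only [Finset.mem_union, Finset.mem_sdiff]
        have := @hZA v
        tauto
      have e2 : (A \ Z) ∩ (Z ∪ Y) = (A ∩ Y) \ Z := by
        ext v
        simp only [Finset.mem_union, Finset.mem_sdiff, Finset.mem_inter]
        tauto
      rw [e1, e2] at ih
      have hd : Disjoint ((A ∩ Y) \ Z) (Z ∩ Y) := by
        rw [Finset.disjoint_left]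
        intro v h1 h2
        exact (Finset.mem_sdiff.mp h1).2 (Finset.mem_inter.mp h2).1
      have h1 := hsup _ _ hd
      have e3 : (A ∩ Y) \ Z ∪ Z ∩ Y = A ∩ Y := by
        ext v
        simp only [Finset.mem_union, Finset.mem_sdiff, Finset.mem_inter]
        have := @hZA v
        tauto
      rw [e3] at h1
      have h2 := hPY (Z ∩ Y) (Or.inr g1)
      linarith
    · have hF1 : F1 Z := (hC.1 Z hZ).resolve_right hF2
      by_cases hZsub : Z ⊆ Y
      · -- Z inside Y
        have ih := ihn _ hcard _ (A \ Z) (C.erase Z) Y rfl rfl herase hY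
        have e1 : A \ Z ∪ Y = A ∪ Y := by
          ext v
          simp only [Finset.mem_union, Finset.mem_sdiff]
          have := @hZsub v
          tauto
        have e2 : (A \ Z) ∩ Y = (A ∩ Y) \ Z := by
          ext v
          simp only [Finset.mem_sdiff, Finset.mem_inter]
          tauto
        rw [e1, e2] at ih
        have hd : Disjoint ((A ∩ Y) \ Z) Z := Finset.sdiff_disjoint
        have h1 := hsup _ _ hd
        have e3 : (A ∩ Y) \ Z ∪ Z = A ∩ Y := by
          ext v
          simp only [Finset.mem_union, Finset.mem_sdiff, Finset.mem_inter]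
          have h1 := @hZA v
          have h2 := @hZsub v
          tauto
        rw [e3] at h1
        have h2 := hPY Z (Or.inl hF1)
        linarith
      · -- crossing
        have hZd : (Z \ Y).Nonempty := Finset.sdiff_nonempty.mpr hZsub
        obtain ⟨g1, g2, g3 | g3⟩ := S.mix Z Y hF1 hY hZY hZd hYZ
        · -- replace Z by Z \ Y
          set C' := insert (Z \ Y) (C.erase Z) with hC'
          have hnotmem : Z \ Y ∉ C.erase Z := by
            intro h
            obtain ⟨v, hv⟩ := hZd
            have h1 := Finset.ne_of_mem_erase h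
            have h2 := Finset.mem_of_mem_erase h
            have h3 : Disjoint (Z \ Y) Z := hC.2.2 h2 hZ h1
            exact Finset.disjoint_left.mp h3 hv (Finset.mem_sdiff.mp hv).1
          have hFam : Fam F1 F2 A C' := by
            refine ⟨fun X hX => ?_, fun X hX => ?_, ?_⟩
            · rcases Finset.mem_insert.mp hX with rfl | h
              · exact Or.inl g1
              · exact hC.1 X (Finset.mem_of_mem_erase h)
            · rcases Finset.mem_insert.mp hX with rfl | h
              · exact Finset.sdiff_subset.trans hZA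
              · exact hC.2.1 X (Finset.mem_of_mem_erase h)
            · have key : ∀ X ∈ C.erase Z, Disjoint (Z \ Y) X := by
                intro X hX
                have h3 : Disjoint Z X := hC.2.2 hZ (Finset.mem_of_mem_erase hX)
                  (Finset.ne_of_mem_erase hX).symm
                exact Finset.disjoint_of_subset_left Finset.sdiff_subset h3
              intro X hX X' hX' hne
              rcases Finset.mem_insert.mp (Finset.mem_coe.mp hX) with rfl | h
              · rcases Finset.mem_insert.mp (Finset.mem_coe.mp hX') with h' | h'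
                · exact absurd h'.symm hne
                · exact key X' h'
              · rcases Finset.mem_insert.mp (Finset.mem_coe.mp hX') with rfl | h'
                · exact (key X h).symm
                · exact hC.2.2 (Finset.mem_of_mem_erase h) (Finset.mem_of_mem_erase h') hne
          have hcard' : C'.card = n := by
            rw [hC', Finset.card_insert_of_notMem hnotmem, Finset.card_erase_of_mem hZ, hn]
            have : 0 < C.card := Finset.card_pos.mpr ⟨Z, hZ⟩
            omega
          have hk' : Y.card + ∑ X ∈ C', X.card < k := by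
            rw [hC', Finset.sum_insert hnotmem, ← hk, ← Finset.add_sum_erase C _ hZ]
            have : (Z \ Y).card < Z.card := by
              apply Finset.card_lt_card
              refine Finset.ssubset_iff_subset_ne.mpr ⟨Finset.sdiff_subset, fun h => ?_⟩
              obtain ⟨v, hv⟩ := hZY
              rw [Finset.mem_inter] at hv
              rw [← h] at hv
              exact (Finset.mem_sdiff.mp hv.1).2 hv.2
            omega
          have ih := ihk _ hk' A C' Y hcard' rfl hFam hY
          have hv : val p l A C ≤ val p l A C' := by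
            unfold val
            rw [hC', Finset.sum_insert hnotmem, ← Finset.add_sum_erase C _ hZ]
            have e1 : A \ (insert (Z \ Y) (C.erase Z)).biUnion id =
                (A \ C.biUnion id) ∪ (Z ∩ Y) := by
              ext v
              simp only [Finset.mem_sdiff, Finset.mem_biUnion, id, Finset.mem_insert,
                Finset.mem_erase, Finset.mem_union, Finset.mem_inter, not_exists, not_and]
              constructor
              · rintro ⟨h1, h2⟩
                by_cases hvZ : v ∈ Z
                · right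
                  refine ⟨hvZ, ?_⟩
                  by_contra hvY
                  exact h2 (Z \ Y) (Or.inl rfl) (Finset.mem_sdiff.mpr ⟨hvZ, hvY⟩)
                · left
                  refine ⟨h1, fun X hX hv => ?_⟩
                  by_cases hXZ : X = Z
                  · exact hvZ (hXZ ▸ hv)
                  · exact h2 X (Or.inr ⟨hXZ, hX⟩) hv
              · rintro (⟨h1, h2⟩ | ⟨h1, h2⟩)
                · refine ⟨h1, fun X hX hv => ?_⟩
                  rcases hX with rfl | hX
                  · exact h2 Z hZ (Finset.mem_sdiff.mp hv).1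
                  · exact h2 X hX.2 hv
                · refine ⟨hZA h1, fun X hX hv => ?_⟩
                  rcases hX with rfl | hX
                  · exact (Finset.mem_sdiff.mp hv).2 h2
                  · have h3 : Disjoint X Z := hC.2.2 hX.2 hZ hX.1
                    exact Finset.disjoint_left.mp h3 hv h1
            have hd : Disjoint (A \ C.biUnion id) (Z ∩ Y) := by
              rw [Finset.disjoint_left]
              intro v h1 h2
              refine (Finset.mem_sdiff.mp h1).2 ?_
              rw [Finset.mem_biUnion]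
              exact ⟨Z, hZ, (Finset.mem_inter.mp h2).1⟩
            rw [e1, Finset.sum_union hd]
            linarith
          linarith
        · -- replace Y by Y \ Z
          have hk' : (Y \ Z).card + ∑ X ∈ C, X.card < k := by
            rw [← hk]
            have : (Y \ Z).card < Y.card := by
              apply Finset.card_lt_card
              refine Finset.ssubset_iff_subset_ne.mpr ⟨Finset.sdiff_subset, fun h => ?_⟩
              obtain ⟨v, hv⟩ := hZY
              rw [Finset.mem_inter] at hv
              have h1 := hv.2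
              rw [← h] at h1
              exact (Finset.mem_sdiff.mp h1).2 hv.1
            omega
          have ih := ihk _ hk' A C (Y \ Z) hn rfl hC g2
          have e1 : A ∪ Y \ Z = A ∪ Y := by
            ext v
            simp only [Finset.mem_union, Finset.mem_sdiff]
            have := @hZA v
            tauto
          have e2 : A ∩ (Y \ Z) = (A ∩ Y) \ Z := by
            ext v
            simp only [Finset.mem_sdiff, Finset.mem_inter]
            tauto
          rw [e1, e2] at ih
          have hd : Disjoint ((A ∩ Y) \ Z) (Z ∩ Y) := by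
            rw [Finset.disjoint_left]
            intro v h1 h2
            exact (Finset.mem_sdiff.mp h1).2 (Finset.mem_inter.mp h2).1
          have h1 := hsup _ _ hd
          have e3 : (A ∩ Y) \ Z ∪ Z ∩ Y = A ∩ Y := by
            ext v
            simp only [Finset.mem_union, Finset.mem_sdiff, Finset.mem_inter]
            have := @hZA v
            tauto
          rw [e3] at h1
          have h2 := hPl (Z ∩ Y)
          linarith
  · -- no member meets Y
    have hdis : ∀ Z ∈ C, Disjoint Z Y := by
      intro Z hZ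
      rw [Finset.disjoint_iff_inter_eq_empty]
      by_contra h
      exact hmeet ⟨Z, hZ, Finset.nonempty_iff_ne_empty.mpr h⟩
    have hnotmem : Y ∉ C := by
      intro h
      obtain ⟨v, hv⟩ := S.ne2 Y hY
      exact Finset.disjoint_left.mp (hdis Y h) hv hv
    have hFam : Fam F1 F2 (A ∪ Y) (insert Y C) := by
      refine ⟨fun X hX => ?_, fun X hX => ?_, ?_⟩
      · rcases Finset.mem_insert.mp hX with rfl | h
        · exact Or.inr hY
        · exact hC.1 X h
      · rcases Finset.mem_insert.mp hX with rfl | h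
        · exact Finset.subset_union_right
        · exact (hC.2.1 X h).trans Finset.subset_union_left
      · intro X hX X' hX' hne
        rcases Finset.mem_insert.mp (Finset.mem_coe.mp hX) with rfl | h
        · rcases Finset.mem_insert.mp (Finset.mem_coe.mp hX') with h' | h'
          · exact absurd h'.symm hne
          · exact (hdis X' h').symm
        · rcases Finset.mem_insert.mp (Finset.mem_coe.mp hX') with rfl | h'
          · exact hdis X h
          · exact hC.2.2 h h' hne
    have h1 := hval _ _ hFam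
    have h2 := hPl (A ∩ Y)
    unfold val at h1 ⊢
    rw [Finset.sum_insert hnotmem] at h1
    have e1 : A \ C.biUnion id = ((A ∪ Y) \ (insert Y C).biUnion id) ∪ (A ∩ Y) := by
      ext v
      simp only [Finset.mem_sdiff, Finset.mem_biUnion, id, Finset.mem_insert, Finset.mem_union,
        Finset.mem_inter, not_exists, not_and]
      constructor
      · rintro ⟨h1, h2⟩
        by_cases hvY : v ∈ Y
        · exact Or.inr ⟨h1, hvY⟩
        · left
          refine ⟨Or.inl h1, fun X hX hv => ?_⟩
          rcases hX with rfl | hX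
          · exact hvY hv
          · exact h2 X hX hv
      · rintro (⟨h1, h2⟩ | ⟨h1, h2⟩)
        · refine ⟨h1.resolve_right (fun h => h2 Y (Or.inl rfl) h), fun X hX => h2 X (Or.inr hX)⟩
        · exact ⟨h1, fun X hX hv => Finset.disjoint_left.mp (hdis X hX) hv h2⟩
    have hd : Disjoint ((A ∪ Y) \ (insert Y C).biUnion id) (A ∩ Y) := by
      rw [Finset.disjoint_left]
      intro v h1 h2
      refine (Finset.mem_sdiff.mp h1).2 ?_
      rw [Finset.mem_biUnion]
      exact ⟨Y, Finset.mem_insert_self _ _, (Finset.mem_inter.mp h2).2⟩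
    rw [e1, Finset.sum_union hd]
    linarith

/-- There is a supermodular function above p on F1 and F2, above l, and below every function
which is above all values. -/
theorem exists_trunc [Fintype V] {F1 F2 : Finset V → Prop} {p : Finset V → ℤ} {l : V → ℤ}
    (S : Sys F1 F2 p l) :
    ∃ P : Finset V → ℤ, P ∅ = 0 ∧ (∀ X Y, P X + P Y ≤ P (X ∩ Y) + P (X ∪ Y)) ∧
      (∀ X, F1 X ∨ F2 X → p X ≤ P X) ∧ (∀ v, l v ≤ P {v}) ∧
      ∀ W, ∃ C, Fam F1 F2 W C ∧ P W = val p l W C := by
  classical
  have hempty : ∀ W, Fam F1 F2 W ∅ := fun W =>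
    ⟨fun X hX => absurd hX (Finset.notMem_empty X),
      fun X hX => absurd hX (Finset.notMem_empty X), by
        rw [Finset.coe_empty]; exact Set.pairwiseDisjoint_empty⟩
  have hne : ∀ W, ((Finset.univ : Finset (Finset (Finset V))).filter
      (fun C => Fam F1 F2 W C)).Nonempty := fun W =>
    ⟨∅, Finset.mem_filter.mpr ⟨Finset.mem_univ _, hempty W⟩⟩
  obtain ⟨P, hP⟩ : ∃ P : Finset V → ℤ, ∀ W, P W = ((Finset.univ : Finset (Finset (Finset V))).filter
      (fun C => Fam F1 F2 W C)).sup' (hne W) (val p l W) := ⟨_, fun W => rfl⟩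
  have hval : ∀ W C, Fam F1 F2 W C → val p l W C ≤ P W := by
    intro W C hC
    rw [hP]
    exact Finset.le_sup' (val p l W) (Finset.mem_filter.mpr ⟨Finset.mem_univ _, hC⟩)
  have hex : ∀ W, ∃ C, Fam F1 F2 W C ∧ P W = val p l W C := by
    intro W
    obtain ⟨C, hC, h⟩ := Finset.exists_mem_eq_sup' (hne W) (val p l W)
    exact ⟨C, (Finset.mem_filter.mp hC).2, by rw [hP, h]⟩
  have hmemne : ∀ X, F1 X ∨ F2 X → X.Nonempty := fun X hX => hX.elim (S.ne1 X) (S.ne2 X)
  have hP0 : P ∅ = 0 := by
    obtain ⟨C, hC, h⟩ := hex ∅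
    have hC0 : C = ∅ := by
      rw [Finset.eq_empty_iff_forall_notMem]
      intro X hX
      obtain ⟨v, hv⟩ := hmemne X (hC.1 X hX)
      exact absurd (hC.2.1 X hX hv) (Finset.notMem_empty v)
    rw [h, hC0]
    unfold val
    simp
  have hsup : ∀ X Y, Disjoint X Y → P X + P Y ≤ P (X ∪ Y) := by
    intro X Y hXY
    obtain ⟨C, hC, hCv⟩ := hex X
    obtain ⟨D, hD, hDv⟩ := hex Y
    have hcross : ∀ Z ∈ C, ∀ Z' ∈ D, Disjoint Z Z' := fun Z hZ Z' hZ' =>
      Finset.disjoint_of_subset_left (hC.2.1 Z hZ)
        (Finset.disjoint_of_subset_right (hD.2.1 Z' hZ') hXY)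
    have hCD : Disjoint C D := by
      rw [Finset.disjoint_left]
      intro Z h1 h2
      obtain ⟨v, hv⟩ := hmemne Z (hC.1 Z h1)
      exact Finset.disjoint_left.mp (hcross Z h1 Z h2) hv hv
    have hFam : Fam F1 F2 (X ∪ Y) (C ∪ D) := by
      refine ⟨fun Z hZ => ?_, fun Z hZ => ?_, ?_⟩
      · rcases Finset.mem_union.mp hZ with h | h
        · exact hC.1 Z h
        · exact hD.1 Z h
      · rcases Finset.mem_union.mp hZ with h | h
        · exact (hC.2.1 Z h).trans Finset.subset_union_left
        · exact (hD.2.1 Z h).trans Finset.subset_union_right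
      · intro Z hZ Z' hZ' hne
        rcases Finset.mem_union.mp (Finset.mem_coe.mp hZ) with h | h
        · rcases Finset.mem_union.mp (Finset.mem_coe.mp hZ') with h' | h'
          · exact hC.2.2 h h' hne
          · exact hcross Z h Z' h'
        · rcases Finset.mem_union.mp (Finset.mem_coe.mp hZ') with h' | h'
          · exact (hcross Z' h' Z h).symm
          · exact hD.2.2 h h' hne
    have h1 := hval _ _ hFam
    have e1 : (X ∪ Y) \ (C ∪ D).biUnion id = (X \ C.biUnion id) ∪ (Y \ D.biUnion id) := by
      ext v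
      simp only [Finset.mem_sdiff, Finset.mem_biUnion, id, Finset.mem_union, not_exists, not_and]
      constructor
      · rintro ⟨h1 | h1, h2⟩
        · exact Or.inl ⟨h1, fun Z hZ => h2 Z (Or.inl hZ)⟩
        · exact Or.inr ⟨h1, fun Z hZ => h2 Z (Or.inr hZ)⟩
      · rintro (⟨h1, h2⟩ | ⟨h1, h2⟩)
        · refine ⟨Or.inl h1, fun Z hZ hv => ?_⟩
          rcases hZ with hZ | hZ
          · exact h2 Z hZ hv
          · exact Finset.disjoint_left.mp hXY h1 (hD.2.1 Z hZ hv)
        · refine ⟨Or.inr h1, fun Z hZ hv => ?_⟩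
          rcases hZ with hZ | hZ
          · exact Finset.disjoint_left.mp hXY (hC.2.1 Z hZ hv) h1
          · exact h2 Z hZ hv
    have hd : Disjoint (X \ C.biUnion id) (Y \ D.biUnion id) :=
      Finset.disjoint_of_subset_left Finset.sdiff_subset
        (Finset.disjoint_of_subset_right Finset.sdiff_subset hXY)
    unfold val at h1 hCv hDv
    rw [Finset.sum_union hCD, e1, Finset.sum_union hd] at h1
    linarith
  have hPY : ∀ Y, F1 Y ∨ F2 Y → p Y ≤ P Y := by
    intro Y hY
    have h1 := hval Y {Y} ⟨fun X hX => by rw [Finset.mem_singleton.mp hX]; exact hY,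
      fun X hX => by rw [Finset.mem_singleton.mp hX], by
        rw [Finset.coe_singleton]; exact Set.pairwiseDisjoint_singleton _ _⟩
    unfold val at h1
    rw [Finset.sum_singleton, Finset.singleton_biUnion, id, Finset.sdiff_self,
      Finset.sum_empty, add_zero] at h1
    exact h1
  have hPl : ∀ v, l v ≤ P {v} := by
    intro v
    have h1 := hval {v} ∅ (hempty _)
    unfold val at h1
    rw [Finset.sum_empty, Finset.biUnion_empty, Finset.sdiff_empty, zero_add,
      Finset.sum_singleton] at h1
    exact h1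
  -- good sets
  have hgoodF : ∀ Y, F1 Y ∨ F2 Y → ∀ A, P A + p Y ≤ P (A ∪ Y) + P (A ∩ Y) := by
    intro Y hY A
    obtain ⟨C, hC, hCv⟩ := hex A
    rcases hY with hY | hY
    · have := ssl S.swap P hsup (fun W D hD => hval W D hD.swap) _ _ A C Y rfl rfl hC.swap hY
      rw [hCv]
      exact this
    · have := ssl S P hsup hval _ _ A C Y rfl rfl hC hY
      rw [hCv]
      exact this
  have hgoodl : ∀ v, ∀ A, P A + l v ≤ P (A ∪ {v}) + P (A ∩ {v}) := by
    intro v A
    by_cases hv : v ∈ A
    · have e1 : A ∪ {v} = A := Finset.union_eq_left.mpr (Finset.singleton_subset_iff.mpr hv)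
      have e2 : A ∩ {v} = {v} := Finset.inter_eq_right.mpr (Finset.singleton_subset_iff.mpr hv)
      rw [e1, e2]
      have := hPl v
      linarith
    · have hd : Disjoint A {v} := Finset.disjoint_singleton_right.mpr hv
      have h1 := hsup A {v} hd
      rw [Finset.disjoint_iff_inter_eq_empty.mp hd, hP0]
      have := hPl v
      linarith
  have hcomb : ∀ (Y1 Y2 : Finset V) (y1 y2 : ℤ), Disjoint Y1 Y2 →
      (∀ A, P A + y1 ≤ P (A ∪ Y1) + P (A ∩ Y1)) → (∀ A, P A + y2 ≤ P (A ∪ Y2) + P (A ∩ Y2)) →
      ∀ A, P A + (y1 + y2) ≤ P (A ∪ (Y1 ∪ Y2)) + P (A ∩ (Y1 ∪ Y2)) := by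
    intro Y1 Y2 y1 y2 hd h1 h2 A
    have g1 := h1 A
    have g2 := h2 (A ∪ Y1)
    have e1 : (A ∪ Y1) ∩ Y2 = A ∩ Y2 := by
      ext v
      simp only [Finset.mem_inter, Finset.mem_union]
      constructor
      · rintro ⟨h | h, h'⟩
        · exact ⟨h, h'⟩
        · exact absurd h' (Finset.disjoint_left.mp hd h)
      · rintro ⟨h, h'⟩
        exact ⟨Or.inl h, h'⟩
    rw [e1, Finset.union_assoc] at g2
    have hd2 : Disjoint (A ∩ Y1) (A ∩ Y2) :=
      Finset.disjoint_of_subset_left Finset.inter_subset_right
        (Finset.disjoint_of_subset_right Finset.inter_subset_right hd)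
    have g3 := hsup _ _ hd2
    rw [← Finset.inter_union_distrib_left] at g3
    linarith
  have hfam : ∀ (D : Finset (Finset V)), (∀ X ∈ D, F1 X ∨ F2 X) →
      (D : Set (Finset V)).PairwiseDisjoint id →
      ∀ A, P A + ∑ X ∈ D, p X ≤ P (A ∪ D.biUnion id) + P (A ∩ D.biUnion id) := by
    intro D
    induction D using Finset.induction_on with
    | empty =>
      intro _ _ A
      simp [hP0]
    | insert Z D hZ ih =>
      intro h1 h2 A
      rw [Finset.sum_insert hZ, Finset.biUnion_insert]
      refine hcomb (id Z) (D.biUnion id) (p Z) (∑ X ∈ D, p X) ?_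
        (hgoodF Z (h1 Z (Finset.mem_insert_self _ _)))
        (ih (fun X hX => h1 X (Finset.mem_insert_of_mem hX))
          (h2.subset (by rw [Finset.coe_insert]; exact Set.subset_insert _ _))) A
      rw [Finset.disjoint_biUnion_right]
      intro X hX
      refine h2 ?_ ?_ ?_
      · rw [Finset.coe_insert]; exact Set.mem_insert _ _
      · rw [Finset.coe_insert]; exact Set.mem_insert_of_mem _ hX
      · rintro rfl
        exact hZ hX
  have hsing : ∀ (R : Finset V), ∀ A, P A + ∑ v ∈ R, l v ≤ P (A ∪ R) + P (A ∩ R) := by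
    intro R
    induction R using Finset.induction_on with
    | empty =>
      intro A
      simp [hP0]
    | insert v R hv ih =>
      intro A
      rw [Finset.sum_insert hv, Finset.insert_eq]
      exact hcomb {v} R (l v) (∑ v ∈ R, l v) (Finset.disjoint_singleton_left.mpr hv)
        (hgoodl v) ih A
  refine ⟨P, hP0, ?_, hPY, hPl, hex⟩
  intro X Y
  obtain ⟨C, hC, hCv⟩ := hex Y
  have hsubW : C.biUnion id ⊆ Y := by
    intro v hv
    rw [Finset.mem_biUnion] at hv
    obtain ⟨Z, hZ, hvZ⟩ := hv
    exact hC.2.1 Z hZ hvZ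
  have h := hcomb (C.biUnion id) (Y \ C.biUnion id) (∑ Z ∈ C, p Z) (∑ v ∈ Y \ C.biUnion id, l v)
    Finset.disjoint_sdiff (hfam C hC.1 hC.2.2) (hsing _) X
  rw [Finset.union_sdiff_of_subset hsubW] at h
  have e : P Y = ∑ Z ∈ C, p Z + ∑ v ∈ Y \ C.biUnion id, l v := hCv
  rw [← e] at h
  linarith

/-- The vector. -/
theorem exists_vector [Fintype V] {F1 F2 : Finset V → Prop} {p : Finset V → ℤ} {l : V → ℤ}
    (S : Sys F1 F2 p l) (f : Finset V → ℤ)
    (hf : ∀ X Y, f (X ∩ Y) + f (X ∪ Y) ≤ f X + f Y) (hf0 : f ∅ = 0)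
    (h : ∀ W C, Fam F1 F2 W C → val p l W C ≤ f W) :
    ∃ m : V → ℤ, ∑ v, m v = f Finset.univ ∧ (∀ X, ∑ v ∈ X, m v ≤ f X) ∧
      (∀ X, F1 X ∨ F2 X → p X ≤ ∑ v ∈ X, m v) ∧ ∀ v, l v ≤ m v := by
  classical
  obtain ⟨P, hP0, hPs, hPF, hPl, hPv⟩ := exists_trunc S
  have hPf : ∀ W, P W ≤ f W := by
    intro W
    obtain ⟨C, hC, hv⟩ := hPv W
    rw [hv]
    exact h W C hC
  set Q : Finset V → ℤ := fun X => if X = Finset.univ then f Finset.univ else P X with hQ
  have hge : ∀ X, P X ≤ Q X := by
    intro X
    simp only [hQ]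
    split_ifs with h1
    · rw [h1]; exact hPf _
    · exact le_refl _
  have hQs : ∀ X Y, Q X + Q Y ≤ Q (X ∩ Y) + Q (X ∪ Y) := by
    intro X Y
    by_cases hX : X = Finset.univ
    · subst hX
      rw [Finset.univ_inter, Finset.union_eq_left.mpr (Finset.subset_univ Y)]
      linarith
    by_cases hY : Y = Finset.univ
    · subst hY
      rw [Finset.inter_univ, Finset.union_eq_right.mpr (Finset.subset_univ X)]
    have h3 : Q X = P X := by simp only [hQ]; rw [if_neg hX]
    have h4 : Q Y = P Y := by simp only [hQ]; rw [if_neg hY]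
    have h1 := hge (X ∩ Y)
    have h2 := hge (X ∪ Y)
    have h5 := hPs X Y
    linarith
  have hQf : ∀ X, Q X ≤ f X := by
    intro X
    simp only [hQ]
    split_ifs with h1
    · rw [h1]
    · exact hPf X
  have hQ0 : Q ∅ = 0 := by
    simp only [hQ]
    split_ifs with h1
    · rw [← h1]; exact hf0
    · exact hP0
  obtain ⟨m, hm⟩ := sandwich Q f hQs hf hQf hQ0 hf0
  refine ⟨m, ?_, fun X => (hm X).2, fun X hX => (hPF X hX).trans ((hge X).trans (hm X).1), ?_⟩
  · have h1 := (hm Finset.univ).1
    have h2 := (hm Finset.univ).2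
    have h3 : Q Finset.univ = f Finset.univ := by simp [hQ]
    linarith
  · intro v
    have h1 := (hm {v}).1
    rw [Finset.sum_singleton] at h1
    exact (hPl v).trans ((hge {v}).trans h1)

end H43.OF
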