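import Pool.Agent.H43.OF.Signs

/-!
# From a good vector to feedback arc sets with multiplicities
-/

namespace H43.OF

open H37.OS

variable {V F A E : Type*}

/-- c is a directed cycle of D with n + 1 arcs. -/
def DiCycle (tl hd : A → V) (n : ℕ) (c : Fin (n + 1) → A) : Prop :=
  (∀ i, hd (c i) = tl (c (i + 1))) ∧ Function.Injective (fun i => tl (c i))

/-- There are k feedback arc sets of D such that every arc a is in at most w a of them. -/
def HasFas [DecidableEq A] (tl hd : A → V) (w : A → ℕ) (k : ℕ) : Prop :=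
  ∃ T : Fin k → Finset A, (∀ a, (Finset.univ.filter (fun i => a ∈ T i)).card ≤ w a) ∧
    ∀ i n c, DiCycle tl hd n c → ∃ j, c j ∈ T i

/-- The ring version of Edmonds' theorem for a set E of edges parallel to arcs of A: the family is
given by A. -/
theorem ringSplit2 [Fintype F] [DecidableEq F] [Fintype A] [DecidableEq A] [Fintype E]
    [DecidableEq E] (lf rt : A → F) (p q : E → F) (hE : ∀ e, ∃ a, lf a = p e ∧ rt a = q e)
    (r : F) (k : ℕ) (J : Finset E)
    (h : ∀ X : Finset F, X.Nonempty → r ∉ X → NoEnter lf rt X → k ≤ (leave p q J X).card) :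
    ∃ P : Fin k → Finset E, (∀ i, P i ⊆ J) ∧ (∀ i j, i ≠ j → Disjoint (P i) (P j)) ∧
      ∀ i, ∀ X : Finset F, X.Nonempty → r ∉ X → NoEnter lf rt X →
        (leave p q (P i) X).Nonempty := by
  classical
  let tl' : E ⊕ A → F := Sum.elim p lf
  let hd' : E ⊕ A → F := Sum.elim q rt
  let J' : Finset (E ⊕ A) := Finset.univ.filter (fun x => ∃ e ∈ J, x = Sum.inl e)
  have hNE : ∀ X : Finset F, NoEnter tl' hd' X ↔ NoEnter lf rt X := by
    intro X
    constructor
    · intro hX a ha
      exact hX (Sum.inr a) ha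
    · rintro hX (e | a) ha
      · obtain ⟨a, ha1, ha2⟩ := hE e
        have h1 : hd' (Sum.inl e) = q e := rfl
        have h2 : tl' (Sum.inl e) = p e := rfl
        rw [h1, ← ha2] at ha
        rw [h2, ← ha1]
        exact hX a ha
      · exact hX a ha
  have hcard : ∀ (K : Finset E) (X : Finset F), (leave p q K X).card =
      (leave tl' hd' (Finset.univ.filter (fun x => ∃ e ∈ K, x = Sum.inl e)) X).card := by
    intro K X
    apply Finset.card_bij (fun e _ => Sum.inl e)
    · intro e he
      rw [mem_leave] at he ⊢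
      exact ⟨by simpa using he.1, he.2.1, he.2.2⟩
    · intro e _ e' _ hh
      simpa using hh
    · intro x hx
      rw [mem_leave] at hx
      obtain ⟨hx1, hx2, hx3⟩ := hx
      simp only [Finset.mem_filter, Finset.mem_univ, true_and] at hx1
      obtain ⟨e, he, rfl⟩ := hx1
      exact ⟨e, by rw [mem_leave]; exact ⟨he, hx2, hx3⟩, rfl⟩
  obtain ⟨P, hP1, hP2, hP3⟩ := ringSplit tl' hd' r k J' (by
    intro X hX hr hN
    rw [← hcard J X]
    exact h X hX hr ((hNE X).1 hN))
  refine ⟨fun i => Finset.univ.filter (fun e => Sum.inl e ∈ P i), ?_, ?_, ?_⟩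
  · intro i e he
    simp only [Finset.mem_filter, Finset.mem_univ, true_and] at he
    have := hP1 i he
    simpa [J'] using this
  · intro i j hij
    rw [Finset.disjoint_left]
    intro e h1 h2
    simp only [Finset.mem_filter, Finset.mem_univ, true_and] at h1 h2
    exact Finset.disjoint_left.1 (hP2 i j hij) h1 h2
  · intro i X hX hr hN
    obtain ⟨x, hx⟩ := hP3 i X hX hr ((hNE X).2 hN)
    rw [mem_leave] at hx
    have h1 := hP1 i hx.1
    simp only [J', Finset.mem_filter, Finset.mem_univ, true_and] at h1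
    obtain ⟨e, he, rfl⟩ := h1
    exact ⟨e, by rw [mem_leave]; exact ⟨by simpa using hx.1, hx.2.1, hx.2.2⟩⟩

/-- From two disjoint sets J and K of edges. -/
theorem dijoins_of_two [Fintype F] [DecidableEq F] [Fintype A] [DecidableEq A] [Fintype E]
    [DecidableEq E] (lf rt : A → F) (p q : E → F) (hE : ∀ e, ∃ a, lf a = p e ∧ rt a = q e)
    (r : F) (k : ℕ) (J K : Finset E) (hJK : Disjoint J K)
    (h1 : ∀ X : Finset F, X.Nonempty → r ∉ X → NoEnter lf rt X → k ≤ (leave p q J X).card)
    (h2 : ∀ X : Finset F, X.Nonempty → r ∉ X → NoLeave lf rt X → k ≤ (leave q p K X).card) :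
    ∃ P : Fin k → Finset E, (∀ i j, i ≠ j → Disjoint (P i) (P j)) ∧
      ∀ i, ∀ X : Finset F, X.Nonempty → X ≠ Finset.univ → NoEnter lf rt X →
        ∃ e ∈ P i, p e ∈ X ∧ q e ∉ X := by
  classical
  obtain ⟨P, hP1, hP2, hP3⟩ := ringSplit2 lf rt p q hE r k J h1
  obtain ⟨Q, hQ1, hQ2, hQ3⟩ := ringSplit2 rt lf q p
    (fun e => by obtain ⟨a, ha1, ha2⟩ := hE e; exact ⟨a, ha2, ha1⟩) r k K (by
      intro X hX hr hN
      exact h2 X hX hr (fun a ha => hN a ha))
  refine ⟨fun i => P i ∪ Q i, ?_, ?_⟩
  · intro i j hij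
    rw [Finset.disjoint_union_left, Finset.disjoint_union_right, Finset.disjoint_union_right]
    have hPQ : ∀ i j, Disjoint (P i) (Q j) := fun i j =>
      Finset.disjoint_of_subset_left (hP1 i) (Finset.disjoint_of_subset_right (hQ1 j) hJK)
    exact ⟨⟨hP2 i j hij, hPQ i j⟩, (hPQ j i).symm, hQ2 i j hij⟩
  · intro i X hX hXu hN
    by_cases hr : r ∈ X
    · have hne : Xᶜ.Nonempty := by
        rw [Finset.nonempty_iff_ne_empty]
        intro hh
        exact hXu (Finset.compl_eq_empty_iff X |>.1 hh)
      obtain ⟨e, he⟩ := hQ3 i Xᶜ hne (by simpa using hr) (by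
        intro a ha
        rw [Finset.mem_compl] at ha ⊢
        exact fun hh => ha (hN a hh))
      rw [mem_leave] at he
      refine ⟨e, Finset.mem_union.2 (Or.inr he.1), ?_, Finset.mem_compl.1 he.2.1⟩
      by_contra hh
      exact he.2.2 (Finset.mem_compl.2 hh)
    · obtain ⟨e, he⟩ := hP3 i X hX hr hN
      rw [mem_leave] at he
      exact ⟨e, Finset.mem_union.2 (Or.inl he.1), he.2.1, he.2.2⟩

/-- Disjoint sets of weighted copies give feedback arc sets. -/
theorem fas_of_dijoins [Finite V] [DecidableEq V] [Fintype A] [DecidableEq A] [Fintype F]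
    [DecidableEq F] (tl hd : A → V) (lf rt : A → F) (hdual : DualPair tl hd lf rt) (w : A → ℕ)
    (t : ℕ) (P : Fin t → Finset (Σ a, Fin (w a))) (hP : ∀ i j, i ≠ j → Disjoint (P i) (P j))
    (h : ∀ i, ∀ X : Finset F, X.Nonempty → X ≠ Finset.univ → NoEnter lf rt X →
        ∃ e ∈ P i, lf e.1 ∈ X ∧ rt e.1 ∉ X) :
    HasFas tl hd w t := by
  classical
  refine ⟨fun i => (P i).image (fun e => e.1), ?_, ?_⟩
  · intro a
    have h1 : ∀ i ∈ Finset.univ.filter (fun i => a ∈ (P i).image (fun e => e.1)),
        ∃ x : Fin (w a), (⟨a, x⟩ : Σ a, Fin (w a)) ∈ P i := by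
      intro i hi
      simp only [Finset.mem_filter, Finset.mem_univ, true_and, Finset.mem_image] at hi
      obtain ⟨⟨b, x⟩, hb, rfl⟩ := hi
      exact ⟨x, hb⟩
    by_cases hw : w a = 0
    · have : Finset.univ.filter (fun i => a ∈ (P i).image (fun e => e.1)) = ∅ := by
        apply Finset.eq_empty_of_forall_notMem
        intro i hi
        obtain ⟨x, _⟩ := h1 i hi
        have h2 := x.2
        omega
      rw [this]
      simp
    · haveI : Nonempty (Fin (w a)) := ⟨⟨0, Nat.pos_of_ne_zero hw⟩⟩
      choose! g hg using h1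
      have h2 : (Finset.univ.filter (fun i => a ∈ (P i).image (fun e => e.1))).card ≤
          (Finset.univ : Finset (Fin (w a))).card := by
        apply Finset.card_le_card_of_injOn g (fun i _ => Finset.mem_univ _)
        intro i hi j hj hij
        by_contra hne
        have h3 := hg i hi
        have h4 := hg j hj
        rw [hij] at h3
        exact Finset.disjoint_left.1 (hP i j hne) h3 h4
      simpa using h2
  · intro i n c hc
    exact fas_of_dijoin tl hd lf rt hdual ((P i).image (fun e => e.1)) (by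
      intro X hX hXu hN
      obtain ⟨e, he, h1, h2⟩ := h i X hX hXu hN
      exact ⟨e.1, Finset.mem_image_of_mem _ he, h1, h2⟩) n c hc.1 hc.2

/-- E = the arcs with multiplicities w; a good vector for E gives t feedback arc sets. -/
theorem fas_of_good [Finite V] [DecidableEq V] [Fintype A] [DecidableEq A] [Fintype F]
    [DecidableEq F] (tl hd : A → V) (lf rt : A → F) (hdual : DualPair tl hd lf rt) (w : A → ℕ)
    (r : F) (t : ℕ) (m : F → ℕ)
    (hm : GoodVec lf rt (fun e : (Σ a, Fin (w a)) => lf e.1) (fun e => rt e.1) r t m) :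
    HasFas tl hd w t := by
  classical
  set p : (Σ a, Fin (w a)) → F := fun e => lf e.1 with hp
  set q : (Σ a, Fin (w a)) → F := fun e => rt e.1 with hq
  have hE : ∀ e, ∃ a, lf a = p e ∧ rt a = q e := fun e => ⟨e.1, rfl, rfl⟩
  obtain ⟨hsum, h0, h1⟩ := hm
  obtain ⟨τ, hτ, hmv⟩ := hakimi p q m hsum h0
  have hout : ∀ X : Finset F, Side lf rt r X →
      t ≤ (Finset.univ.filter (fun e => τ e ∈ X ∧ ¬ (p e ∈ X ∧ q e ∈ X))).card := by
    intro X hX
    have h2 := h1 X hX
    have h3 := chosen_card p q τ hτ X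
    have h4 : ∑ v ∈ X, (Finset.univ.filter (fun e => τ e = v)).card = ∑ v ∈ X, m v :=
      Finset.sum_congr rfl (fun v _ => hmv v)
    omega
  obtain ⟨P, hP1, hP2⟩ := dijoins_of_two lf rt p q hE r t
    (Finset.univ.filter (fun e => τ e = p e)) (Finset.univ.filter (fun e => τ e ≠ p e))
    (by
      rw [Finset.disjoint_left]
      intro e h2 h3
      simp only [Finset.mem_filter, Finset.mem_univ, true_and] at h2 h3
      exact h3 h2)
    (by
      intro X hX hr hN
      refine le_trans (hout X ⟨hX, hr, Or.inl hN⟩) (Finset.card_le_card ?_)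
      intro e he
      rw [Finset.mem_filter] at he
      rw [mem_leave, Finset.mem_filter]
      obtain ⟨_, h2, h3⟩ := he
      have hpq : q e ∈ X → p e ∈ X := by
        obtain ⟨a, ha1, ha2⟩ := hE e
        rw [← ha1, ← ha2]
        exact hN a
      rcases hτ e with h4 | h4
      · rw [h4] at h2
        exact ⟨⟨Finset.mem_univ _, h4⟩, h2, fun hh => h3 ⟨h2, hh⟩⟩
      · rw [h4] at h2
        exact absurd ⟨hpq h2, h2⟩ h3)
    (by
      intro X hX hr hN
      refine le_trans (hout X ⟨hX, hr, Or.inr hN⟩) (Finset.card_le_card ?_)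
      intro e he
      rw [Finset.mem_filter] at he
      rw [mem_leave, Finset.mem_filter]
      obtain ⟨_, h2, h3⟩ := he
      have hpq : p e ∈ X → q e ∈ X := by
        obtain ⟨a, ha1, ha2⟩ := hE e
        rw [← ha1, ← ha2]
        exact hN a
      have h5 : p e ∉ X := fun hh => h3 ⟨hh, hpq hh⟩
      rcases hτ e with h4 | h4
      · rw [h4] at h2
        exact absurd h2 h5
      · rw [h4] at h2
        refine ⟨⟨Finset.mem_univ _, ?_⟩, h2, h5⟩
        rw [h4]
        intro h6
        exact h5 (h6 ▸ h2))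
  exact fas_of_dijoins tl hd lf rt hdual w t P hP1 hP2

/-- A directed cut of the dual contains a directed cycle of D. -/
theorem exists_dicycle_in_cut [Finite V] [DecidableEq V] [Fintype A] [Fintype F] [DecidableEq F]
    (tl hd : A → V) (lf rt : A → F) (hdual : DualPair tl hd lf rt)
    (X : Finset F) (hX : X.Nonempty) (hXu : X ≠ Finset.univ) (hE : NoEnter lf rt X) :
    ∃ n c, DiCycle tl hd n c ∧ ∀ i, lf (c i) ∈ X ∧ rt (c i) ∉ X := by
  classical
  set S := leave lf rt Finset.univ X with hSdef
  let x : A → ℤ := fun a => if a ∈ S then 1 else 0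
  have hmem : ∀ a, a ∈ S ↔ lf a ∈ X ∧ rt a ∉ X := by
    intro a
    rw [hSdef, mem_leave]
    simp
  have hx : ∃ π : F → ℤ, ∀ a, x a = π (lf a) - π (rt a) := by
    refine ⟨fun f => if f ∈ X then 1 else 0, ?_⟩
    intro a
    have h1 := hmem a
    have h2 := hE a
    simp only [x]
    by_cases h3 : lf a ∈ X <;> by_cases h4 : rt a ∈ X <;> simp_all
  have hcirc := (hdual.1 x).2 hx
  have hne : S.Nonempty := by
    by_contra hno
    rw [Finset.not_nonempty_iff_eq_empty] at hno
    obtain ⟨f, hf⟩ := hX
    have : ∃ f', f' ∉ X := by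
      by_contra hcon
      push Not at hcon
      exact hXu (Finset.eq_univ_iff_forall.2 hcon)
    obtain ⟨f', hf'⟩ := this
    have h1 := hdual.2 (fun f => if f ∈ X then 1 else 0) (by
      intro a
      have h1 : ¬ (lf a ∈ X ∧ rt a ∉ X) := by
        intro hh
        have h2 := (hmem a).2 hh
        rw [hno] at h2
        simp at h2
      have h2 := hE a
      by_cases h3 : lf a ∈ X
      · by_cases h4 : rt a ∈ X
        · simp [h3, h4]
        · exact absurd ⟨h3, h4⟩ h1
      · have h4 : rt a ∉ X := fun hh => h3 (h2 hh)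
        simp [h3, h4]) f f'
    simp [hf, hf'] at h1
  obtain ⟨n, c, hc1, hc2, hc3⟩ := exists_dicycle tl hd S hne (by
    intro a ha
    by_contra hcon
    push Not at hcon
    have h1 := hcirc (hd a)
    have h2 : (∑ b ∈ Finset.univ.filter (fun b => tl b = hd a), x b) = 0 := by
      apply Finset.sum_eq_zero
      intro b hb
      have hb' : tl b = hd a := by simpa using hb
      have : b ∉ S := fun hbS => hcon b hbS hb'
      simp [x, this]
    have h3 : 0 < ∑ b ∈ Finset.univ.filter (fun b => hd b = hd a), x b := by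
      apply Finset.sum_pos'
      · intro b _
        simp only [x]
        split_ifs <;> norm_num
      · exact ⟨a, by simp, by simp [x, ha]⟩
    omega)
  exact ⟨n, c, ⟨hc1, hc2⟩, fun i => (hmem _).1 (hc3 i)⟩

/-- Every side of a directed cut of the dual contains a directed cycle of D, so its weight is at
least g. -/
theorem side_card [Finite V] [DecidableEq V] [Fintype A] [DecidableEq A] [Fintype F]
    [DecidableEq F] (tl hd : A → V) (lf rt : A → F) (hdual : DualPair tl hd lf rt) (w : A → ℕ)
    (g : ℕ) (hg : ∀ n c, DiCycle tl hd n c → g ≤ ∑ i, w (c i)) (r : F) (X : Finset F)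
    (hX : Side lf rt r X) :
    g ≤ (cut (fun e : (Σ a, Fin (w a)) => lf e.1) (fun e => rt e.1) X).card := by
  classical
  -- a set Y entered by no arc with the same cut
  obtain ⟨Y, hY1, hY2, hY3, hY4⟩ : ∃ Y : Finset F, Y.Nonempty ∧ Y ≠ Finset.univ ∧
      NoEnter lf rt Y ∧ ∀ a, (lf a ∈ Y ∧ rt a ∉ Y) → ¬ (lf a ∈ X ↔ rt a ∈ X) := by
    obtain ⟨hX1, hX2, hX3⟩ := hX
    rcases hX3 with hX3 | hX3
    · exact ⟨X, hX1, fun h => hX2 (h ▸ Finset.mem_univ r), hX3, fun a ha => by tauto⟩
    · refine ⟨Xᶜ, ⟨r, by simpa using hX2⟩, ?_, ?_, ?_⟩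
      · intro h
        obtain ⟨x, hx⟩ := hX1
        have := Finset.eq_univ_iff_forall.1 h x
        exact (Finset.mem_compl.1 this) hx
      · intro a ha
        rw [Finset.mem_compl] at ha ⊢
        exact fun hh => ha (hX3 a hh)
      · intro a ha
        rw [Finset.mem_compl, Finset.mem_compl] at ha
        tauto
  obtain ⟨n, c, hc, hcut⟩ := exists_dicycle_in_cut tl hd lf rt hdual Y hY1 hY2 hY3
  have hinj : Function.Injective c := fun i j hij => hc.2 (by simp only [hij])
  have h1 : cut (fun e : (Σ a, Fin (w a)) => lf e.1) (fun e => rt e.1) X =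
      (cut lf rt X).sigma (fun a => (Finset.univ : Finset (Fin (w a)))) := by
    ext ⟨a, x⟩
    simp [cut]
  rw [h1, Finset.card_sigma]
  simp only [Finset.card_univ, Fintype.card_fin]
  refine le_trans (hg n c hc) ?_
  rw [← Finset.sum_image (f := w) (g := c) (s := Finset.univ) (fun i _ j _ hij => hinj hij)]
  apply Finset.sum_le_sum_of_subset
  intro a ha
  obtain ⟨i, _, rfl⟩ := Finset.mem_image.1 ha
  simp only [cut, Finset.mem_filter, Finset.mem_univ, true_and]
  exact hY4 _ (hcut i)

/-- The potential of a directed cycle. -/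
theorem pot_of_dicycle [DecidableEq V] [Fintype A] (tl hd : A → V) (lf rt : A → F)
    (hdual : DualPair tl hd lf rt) (n : ℕ) (c : Fin (n + 1) → A) (hc : DiCycle tl hd n c) :
    ∃ π : F → ℤ, (∀ b, π (rt b) ≤ π (lf b)) ∧ ∀ i, π (rt (c i)) < π (lf (c i)) := by
  classical
  have hcinj : Function.Injective c := fun i j hij => hc.2 (by simp only [hij])
  let x : A → ℤ := fun a => if a ∈ Finset.univ.image c then 1 else 0
  have hsum : ∀ (e : A → V) (v : V), (∑ a ∈ Finset.univ.filter (fun a => e a = v), x a) =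
      ∑ i : Fin (n + 1), if e (c i) = v then (1 : ℤ) else 0 := by
    intro e v
    rw [Finset.sum_filter]
    simp only [x]
    have h1 : (∑ a : A, if e a = v then (if a ∈ Finset.univ.image c then (1 : ℤ) else 0) else 0) =
        ∑ a ∈ Finset.univ.image c, if e a = v then (1 : ℤ) else 0 := by
      rw [← Finset.sum_filter_add_sum_filter_not Finset.univ (fun a => a ∈ Finset.univ.image c)]
      have h2 : (∑ a ∈ Finset.univ.filter (fun a => ¬ a ∈ Finset.univ.image c),
          if e a = v then (if a ∈ Finset.univ.image c then (1 : ℤ) else 0) else 0) = 0 := by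
        apply Finset.sum_eq_zero
        intro a ha
        rw [Finset.mem_filter] at ha
        rw [if_neg ha.2]
        simp
      rw [h2, add_zero]
      have h3 : Finset.univ.filter (fun a => a ∈ Finset.univ.image c) = Finset.univ.image c := by
        ext a
        simp
      rw [h3]
      apply Finset.sum_congr rfl
      intro a ha
      rw [if_pos ha]
    rw [h1, Finset.sum_image (fun i _ j _ hij => hcinj hij)]
  have hcirc : ∀ v, (∑ a ∈ Finset.univ.filter (fun a => tl a = v), x a) =
      ∑ a ∈ Finset.univ.filter (fun a => hd a = v), x a := by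
    intro v
    rw [hsum tl v, hsum hd v]
    rw [← Equiv.sum_comp (Equiv.addRight (1 : Fin (n + 1)))
      (fun i => if tl (c i) = v then (1 : ℤ) else 0)]
    apply Finset.sum_congr rfl
    intro i _
    rw [hc.1 i]
    rfl
  obtain ⟨π, hπ⟩ := (hdual.1 x).1 hcirc
  refine ⟨π, ?_, ?_⟩
  · intro b
    have h1 := hπ b
    have h2 : 0 ≤ x b := by
      simp only [x]
      split_ifs <;> norm_num
    omega
  · intro i
    have h1 := hπ (c i)
    have h2 : x (c i) = 1 := by simp [x]
    omega

/-- If every arc of D is on a directed cycle, the dual is acyclic. -/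
theorem dual_acyclic [DecidableEq V] [Fintype A]
    (tl hd : A → V) (lf rt : A → F) (hdual : DualPair tl hd lf rt)
    (hall : ∀ a, ∃ n c, DiCycle tl hd n c ∧ ∃ i, c i = a) (u v : F)
    (h1 : Reach lf rt u v) (h2 : Reach lf rt v u) : u = v := by
  by_contra hne
  rcases Relation.ReflTransGen.cases_head h1 with h3 | ⟨x, ⟨a, ha1, ha2⟩, h4⟩
  · exact hne h3
  · have h5 : Reach lf rt (rt a) (lf a) := by
      rw [ha1, ha2]
      exact h4.trans h2
    obtain ⟨n, c, hc, i, hi⟩ := hall a
    obtain ⟨π, hπ1, hπ2⟩ := pot_of_dicycle tl hd lf rt hdual n c hc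
    have key : ∀ y z, Reach lf rt y z → π z ≤ π y := by
      intro y z hyz
      induction hyz with
      | refl => exact le_refl _
      | tail _ hab ih =>
        obtain ⟨b, hb1, hb2⟩ := hab
        have := hπ1 b
        rw [hb1, hb2] at this
        exact le_trans this ih
    have h6 := key _ _ h5
    have h7 := hπ2 i
    rw [hi] at h7
    omega

/-- The dual is connected: every nonempty proper set has a boundary arc. -/
theorem dual_conn [DecidableEq V] [Fintype A] [Fintype F] [DecidableEq F]
    (tl hd : A → V) (lf rt : A → F) (hdual : DualPair tl hd lf rt) (X : Finset F)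
    (h1 : X.Nonempty) (h2 : X ≠ Finset.univ) : 1 ≤ (cut lf rt X).card := by
  classical
  by_contra hcon
  have h3 : cut lf rt X = ∅ := by
    rw [← Finset.card_eq_zero]
    omega
  obtain ⟨f, hf⟩ := h1
  obtain ⟨f', hf'⟩ : ∃ f', f' ∉ X := by
    by_contra hh
    push Not at hh
    exact h2 (Finset.eq_univ_iff_forall.2 hh)
  have h4 := hdual.2 (fun f => if f ∈ X then 1 else 0) (by
    intro a
    have h5 : a ∉ cut lf rt X := by
      rw [h3]
      simp
    simp only [cut, Finset.mem_filter, Finset.mem_univ, true_and, not_not] at h5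
    by_cases h6 : lf a ∈ X
    · simp [h6, h5.1 h6]
    · have h7 : rt a ∉ X := fun hh => h6 (h5.2 hh)
      simp [h6, h7]) f f'
  simp [hf, hf'] at h4

end H43.OF
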